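import Pool.Agent.H.Tc26.Conv

/-! Explicit bases, generic part (helper26, MP_0d0865_co). -/

set_option autoImplicit false

namespace Pool.Agent.H.Tc26

open Finset

/-- Bit set test for the injectivity of `code` below `n`. -/
def chk (code : ℕ → ℕ) (n : ℕ) : ℕ → Bool :=
  Nat.rec (fun _ => true) (fun i ih acc =>
    Bool.casesOn (acc.testBit (code i))
      (Nat.casesOn (acc ||| 2 ^ code i) false (fun m => ih (m + 1))) false) n

theorem Base_chk_succ (code : ℕ → ℕ) (n acc : ℕ) (h : chk code (n + 1) acc = true) :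
    acc.testBit (code n) = false ∧ chk code n (acc ||| 2 ^ code n) = true := by
  have h' : Bool.casesOn (motive := fun _ => Bool) (acc.testBit (code n))
      (Nat.casesOn (motive := fun _ => Bool) (acc ||| 2 ^ code n) false
        (fun m => chk code n (m + 1))) false = true := h
  cases h1 : acc.testBit (code n) with
  | true => rw [h1] at h'; exact absurd h' (by simp)
  | false =>
    rw [h1] at h'
    refine ⟨rfl, ?_⟩
    cases h2 : acc ||| 2 ^ code n with
    | zero => rw [h2] at h'; exact absurd h' (by simp)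
    | succ m => rw [h2] at h'; exact h'

theorem Base_chk (code : ℕ → ℕ) (n : ℕ) : ∀ acc, chk code n acc = true →
    (∀ i < n, acc.testBit (code i) = false) ∧ ∀ i < n, ∀ j < n, code i = code j → i = j := by
  induction n with
  | zero => intro acc _; exact ⟨fun i hi => absurd hi (by omega), fun i hi => absurd hi (by omega)⟩
  | succ n ih =>
    intro acc h
    obtain ⟨h1, h2⟩ := Base_chk_succ code n acc h
    obtain ⟨h3, h4⟩ := ih _ h2
    have h5 : ∀ i < n, acc.testBit (code i) = false ∧ code i ≠ code n := by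
      intro i hi
      have := h3 i hi
      rw [Nat.testBit_or, Bool.or_eq_false_iff, Nat.testBit_two_pow] at this
      refine ⟨this.1, fun h => ?_⟩
      simp [h] at this
    refine ⟨?_, ?_⟩
    · intro i hi
      rcases Nat.lt_succ_iff_lt_or_eq.1 hi with h | rfl
      · exact (h5 i h).1
      · exact h1
    · intro i hi j hj hij
      rcases Nat.lt_succ_iff_lt_or_eq.1 hi with hi' | rfl <;>
        rcases Nat.lt_succ_iff_lt_or_eq.1 hj with hj' | rfl
      · exact h4 i hi' j hj' hij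
      · exact absurd hij (h5 i hi').2
      · exact absurd hij.symm (h5 j hj').2
      · rfl

/-- Next position in the block of four. -/
def nx (p : ℕ) : ℕ := 4 * (p / 4) + (p + 1) % 4

/-- Code of the window at position `p` of class `j`. -/
def bcode (f : ℕ → ℕ → ℕ) (F : ℕ → ℕ) (M j p : ℕ) : ℕ :=
  (F (f j p) + F (f j (nx p)) + F (f j (nx (nx p)))) % M

/-- Position of an element of the disjoint four-cycles. -/
def pos {w : ℕ} (q : Σ _ : Fin w, ZMod 4) : ℕ := 4 * q.1.val + ZMod.val q.2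

theorem Base_val_lt (x : ZMod 4) : ZMod.val x < 4 := ZMod.val_lt x

theorem Base_val_add (x : ZMod 4) : ZMod.val (x + 1) = (ZMod.val x + 1) % 4 := by
  revert x; decide

theorem Base_pos_lt {w : ℕ} (q : Σ _ : Fin w, ZMod 4) : pos q < 4 * w := by
  have h1 := q.1.isLt
  have h2 := Base_val_lt q.2
  unfold pos
  omega

theorem Base_pos_inj {w : ℕ} : Function.Injective (pos (w := w)) := by
  rintro ⟨g, x⟩ ⟨g', x'⟩ h
  have h2 := Base_val_lt x
  have h3 := Base_val_lt x'
  simp only [pos] at h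
  have h4 : g = g' := Fin.ext (by omega)
  have h5 : x = x' := ZMod.val_injective 4 (by omega)
  rw [h4, h5]

theorem Base_pos_nx {w : ℕ} (g : Fin w) (x : ZMod 4) :
    pos (⟨g, x + 1⟩ : Σ _ : Fin w, ZMod 4) = nx (pos (⟨g, x⟩ : Σ _ : Fin w, ZMod 4)) := by
  have h2 := Base_val_lt x
  simp only [pos, nx]
  rw [Base_val_add]
  omega

theorem Base_dec (w N M : ℕ) (f : ℕ → ℕ → ℕ) (F : ℕ → ℕ)
    (hN : N * (4 * w) = (4 * w).choose 3)
    (h1 : ∀ j < N, ∀ p < 4 * w, f j p < 4 * w)
    (h2 : ∀ j < N, chk (f j) (4 * w) 0 = true)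
    (h3 : chk (fun i => bcode f F M (i / (4 * w)) (i % (4 * w))) (N * (4 * w)) 0 = true) :
    Dec (4 * w) (fun _ : Fin w => 4) := by
  classical
  let e : Fin N → ((Σ _ : Fin w, ZMod 4) ↪ Fin (4 * w)) := fun j =>
    ⟨fun q => ⟨f j (pos q), h1 j j.isLt _ (Base_pos_lt q)⟩, by
      intro q q' h
      simp only [Fin.mk.injEq] at h
      exact Base_pos_inj ((Base_chk _ _ _ (h2 j j.isLt)).2 _ (Base_pos_lt q) _ (Base_pos_lt q') h)⟩
  have hev : ∀ j q, (e j q).val = f j (pos q) := fun j q => rfl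
  let win : Fin N × (Σ _ : Fin w, ZMod 4) → Finset (Fin (4 * w)) := fun p =>
    {e p.1 p.2, e p.1 ⟨p.2.1, p.2.2 + 1⟩, e p.1 ⟨p.2.1, p.2.2 + 1 + 1⟩}
  have hwin : ∀ p : Fin N × (Σ _ : Fin w, ZMod 4), (Finset.range 3).image
        (fun j : ℕ => e p.1 ⟨p.2.1, p.2.2 + (j : ZMod 4)⟩) = win p := by
    rintro ⟨j, ⟨g, x⟩⟩
    have h3 : Finset.range 3 = {0, 1, 2} := by decide
    rw [h3]
    simp only [Finset.image_insert, Finset.image_singleton, win]
    have e0 : x + ((0 : ℕ) : ZMod 4) = x := by simp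
    have e1 : x + ((1 : ℕ) : ZMod 4) = x + 1 := by simp
    have e2 : x + ((2 : ℕ) : ZMod 4) = x + 1 + 1 := by push_cast; ring
    rw [e0, e1, e2]
  have hne : ∀ x : ZMod 4, x ≠ x + 1 ∧ x ≠ x + 1 + 1 ∧ x + 1 ≠ x + 1 + 1 := by decide
  have hd : ∀ p : Fin N × (Σ _ : Fin w, ZMod 4), e p.1 p.2 ≠ e p.1 ⟨p.2.1, p.2.2 + 1⟩ ∧
      e p.1 p.2 ≠ e p.1 ⟨p.2.1, p.2.2 + 1 + 1⟩ ∧
      e p.1 ⟨p.2.1, p.2.2 + 1⟩ ≠ e p.1 ⟨p.2.1, p.2.2 + 1 + 1⟩ := by
    rintro ⟨j, ⟨g, x⟩⟩
    obtain ⟨n1, n2, n3⟩ := hne x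
    refine ⟨fun h => n1 ?_, fun h => n2 ?_, fun h => n3 ?_⟩ <;>
      simpa using (e j).injective h
  have hcard : ∀ p, (win p).card = 3 := by
    intro p
    obtain ⟨a, b, c⟩ := hd p
    exact Finset.card_eq_three.2 ⟨_, _, _, a, b, c, rfl⟩
  have hcode : ∀ p, (∑ a ∈ win p, F a.val) % M = bcode f F M p.1.val (pos p.2) := by
    intro p
    obtain ⟨a, b, c⟩ := hd p
    obtain ⟨j, ⟨g, x⟩⟩ := p
    simp only [win] at *
    rw [Finset.sum_insert (by simp [a, b]), Finset.sum_insert (by simp [c]),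
      Finset.sum_singleton, hev, hev, hev, Base_pos_nx g (x + 1), Base_pos_nx g x, bcode,
      add_assoc]
  have hinj : Function.Injective win := by
    intro p p' h
    have h4 := hcode p
    rw [h, hcode p'] at h4
    have hp := Base_pos_lt p.2
    have hp' := Base_pos_lt p'.2
    have hj := p.1.isLt
    have hj' := p'.1.isLt
    have key := (Base_chk _ _ _ h3).2 (p'.1.val * (4 * w) + pos p'.2) (by
        calc p'.1.val * (4 * w) + pos p'.2 < p'.1.val * (4 * w) + 4 * w := by omega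
          _ = (p'.1.val + 1) * (4 * w) := by ring
          _ ≤ N * (4 * w) := Nat.mul_le_mul_right _ hj')
      (p.1.val * (4 * w) + pos p.2) (by
        calc p.1.val * (4 * w) + pos p.2 < p.1.val * (4 * w) + 4 * w := by omega
          _ = (p.1.val + 1) * (4 * w) := by ring
          _ ≤ N * (4 * w) := Nat.mul_le_mul_right _ hj)
    have hw : 0 < 4 * w := by omega
    have hq : ∀ a b : ℕ, b < 4 * w → (a * (4 * w) + b) / (4 * w) = a ∧
        (a * (4 * w) + b) % (4 * w) = b := by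
      intro a b hb
      rw [mul_comm a]
      exact ⟨by rw [Nat.mul_add_div hw, Nat.div_eq_of_lt hb, add_zero],
        by rw [Nat.mul_add_mod, Nat.mod_eq_of_lt hb]⟩
    simp only [(hq _ _ hp).1, (hq _ _ hp).2, (hq _ _ hp').1, (hq _ _ hp').2] at key
    have h5 := key h4
    have h6 := congrArg (· / (4 * w)) h5
    have h7 := congrArg (· % (4 * w)) h5
    simp only [(hq _ _ hp).1, (hq _ _ hp).2, (hq _ _ hp').1, (hq _ _ hp').2] at h6 h7
    exact Prod.ext (Fin.ext h6.symm) (Base_pos_inj h7.symm)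
  let g : Fin N × (Σ _ : Fin w, ZMod 4) → {s : Finset (Fin (4 * w)) // s.card = 3} :=
    fun p => ⟨win p, hcard p⟩
  have hg : Function.Bijective g := by
    rw [Fintype.bijective_iff_injective_and_card]
    refine ⟨fun p p' h => hinj (congrArg Subtype.val h), ?_⟩
    rw [Fintype.card_prod, Fintype.card_sigma, Fintype.card_fin, Fintype.card_finset_len,
      Fintype.card_fin, ← hN]
    simp [mul_comm]
  refine ⟨N, e, fun s hs => ?_⟩
  obtain ⟨p, hp, hu⟩ := hg.existsUnique ⟨s, hs⟩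
  refine ⟨p, ?_, ?_⟩
  · simp only
    rw [hwin p]
    exact (congrArg Subtype.val hp).symm
  · intro p' hp'
    simp only at hp'
    rw [hwin p'] at hp'
    exact hu p' (Subtype.ext hp'.symm)

end Pool.Agent.H.Tc26
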