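import Pool.Agent.H.Tc26.Base

/-! Explicit bases: resolvable Steiner quadruple systems of orders 20, 28, 44
(helper26, MP_0d0865_co). -/

set_option autoImplicit false
set_option maxRecDepth 100000

namespace Pool.Agent.H.Tc26

/-- Classes for order q + 1, q prime. -/
def pf (q T S j p : ℕ) : ℕ :=
  bif Nat.beq (T >>> (8 * p) % 256) q then q else
    (T >>> (8 * p) % 256 * (S >>> (8 * (j / q)) % 256) + j % q) % q

/-- Labels of the points. -/
def lf (U p : ℕ) : ℕ := U >>> (20 * p) % 1048576

theorem Base_pf_lt (q T S j p : ℕ) (hq : 0 < q) : pf q T S j p < q + 1 := by
  unfold pf
  cases Nat.beq (T >>> (8 * p) % 256) q with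
  | true => simp
  | false =>
    simp only [cond_false]
    exact (Nat.mod_lt _ hq).trans (Nat.lt_succ_self q)

theorem Dec_20 : Dec (4 * 5) (fun _ : Fin 5 => 4) :=
  Base_dec 5 57 12166 (pf 19 45896416585160009514594885434882176309590360595
    328705)
    (lf 16356768134749450077928298724749688805626163878513473295937035322100518425761002722715469330115915574108161692186705921)
    (by decide +kernel) (fun j _ p _ => Base_pf_lt 19 _ _ j p (by norm_num))
    (by decide +kernel) (by decide +kernel)

theorem Dec_44 : Dec (4 * 11) (fun _ : Fin 11 => 4) :=
  Base_dec 11 301 103822 (pf 43 900526689889368270396806143757539742406401462442585666785195143343704972965159061539652544172387701948971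
    5926423676650497)
    (lf 422116242560323737467955511084914350048690296234928747386569565974256917800112596877145034897277330856413859584070009895407217060047584230398144314997132292693465688099215370990354029586519649521396382603684475087190232937539559730916845957869024044908446385963009)
    (by decide +kernel) (fun j _ p _ => Base_pf_lt 43 _ _ j p (by norm_num))
    (by decide +kernel) (by decide +kernel)

/-- Classes for order 28 = 27 + 1. -/
def pg (R T j p : ℕ) : ℕ :=
  bif Nat.beq (R >>> (5 * (28 * (j / 9) + p)) % 32) 27 then 27 else
    ((R >>> (5 * (28 * (j / 9) + p)) % 32) / 9 + T >>> (5 * j) % 32 / 9) % 3 * 9 +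
    ((R >>> (5 * (28 * (j / 9) + p)) % 32) / 3 + T >>> (5 * j) % 32 / 3) % 3 * 3 +
    ((R >>> (5 * (28 * (j / 9) + p)) % 32) + T >>> (5 * j) % 32) % 3

theorem Base_pg_lt (R T j p : ℕ) : pg R T j p < 4 * 7 := by
  unfold pg
  cases Nat.beq (R >>> (5 * (28 * (j / 9) + p)) % 32) 27 with
  | true => simp
  | false =>
    simp only [cond_false]
    omega

theorem Dec_28 : Dec (4 * 7) (fun _ : Fin 7 => 4) :=
  Base_dec 7 117 24388 (pg 24639368397190277059317583947262062139230651682090100054629041757976890548145301062367911106285820784713056655008762720881615909120636068081239731441234266876198911276081574492393593942679031334237025291497880698033453647252740745003543914281165452877988300533754906680751244724590022997433342428999401597218151161914666481655720616072105559922286261620634726000808163679204455364217535705350839124921986998906348953247085962337181485057494314396897611168057979965718121829284159432969097457447567439986865621037037800883689730348331623709116793883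
    32547754309986508646515429390038779905412783457911469609792880622734887243403367598206670219919420242518305157242717873049496555527560143802062522187765466889425964355226474592)
    (lf 7057920042664302851157718318520799978463944244200714512088967186028061078061619985479275290994398237108917451427828799610247655960158110145514194604206377505562558465)
    (by decide +kernel) (fun j _ p _ => Base_pg_lt _ _ j p)
    (by decide +kernel) (by decide +kernel)

end Pool.Agent.H.Tc26
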