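import Mathlib

/-! Cycle types of permutations as explicit models (helper26, MP_0d0865_co). -/

set_option autoImplicit false

namespace Pool.Agent.H.Tc26

open Finset Equiv

/-- The multiset of lengths of a family. -/
def fam {I : Type} [Fintype I] (l : I → ℕ) : Multiset ℕ := (univ : Finset I).val.map l

/-- `r` is conjugate to the shift of disjoint cycles with lengths `M`. -/
def IsType {V : Type} (r : Perm V) (M : Multiset ℕ) : Prop :=
  ∃ (I : Type) (_ : Fintype I) (l : I → ℕ) (e : (Σ i : I, ZMod (l i)) ≃ V),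
    fam l = M ∧ ∀ i x, r (e ⟨i, x⟩) = e ⟨i, x + 1⟩

theorem Tc_fam_equiv {I I' : Type} [Fintype I] [Fintype I'] (l : I → ℕ) (l' : I' → ℕ)
    (h : fam l = fam l') : ∃ f : I ≃ I', ∀ i, l' (f i) = l i := by
  classical
  have key : ∀ v, Fintype.card {i // l i = v} = Fintype.card {i // l' i = v} := by
    intro v
    have h1 : ∀ {J : Type} [Fintype J] (k : J → ℕ),
        Fintype.card {i // k i = v} = Multiset.count v (fam k) := by
      intro J _ k
      rw [fam, Multiset.count_map, Fintype.card_subtype]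
      simp only [Finset.card]
      congr 1
      simp only [Finset.filter]
      congr 1
      ext x
      simp [eq_comm]
    rw [h1 l, h1 l', h]
  have g : ∀ v, {i // l i = v} ≃ {i // l' i = v} := fun v => Fintype.equivOfCardEq (key v)
  refine ⟨(Equiv.sigmaFiberEquiv l).symm.trans ((Equiv.sigmaCongrRight g).trans
    (Equiv.sigmaFiberEquiv l')), ?_⟩
  intro i
  have := ((g (l i)) ⟨i, rfl⟩).2
  simpa [Equiv.sigmaFiberEquiv] using this

theorem IsType.exists_equiv {V : Type} {r : Perm V} {M : Multiset ℕ} (h : IsType r M)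
    {I : Type} [Fintype I] (l : I → ℕ) (hl : fam l = M) :
    ∃ e : (Σ i : I, ZMod (l i)) ≃ V, ∀ i x, r (e ⟨i, x⟩) = e ⟨i, x + 1⟩ := by
  obtain ⟨I', _, l', e, hM, he⟩ := h
  obtain ⟨f, hf⟩ := Tc_fam_equiv l l' (hl.trans hM.symm)
  refine ⟨(Equiv.sigmaCongr f fun i => (ZMod.ringEquivCongr (hf i).symm).toEquiv).trans e, ?_⟩
  intro i x
  change r (e ⟨f i, ZMod.ringEquivCongr (hf i).symm x⟩) =
    e ⟨f i, ZMod.ringEquivCongr (hf i).symm (x + 1)⟩
  rw [he, map_add, map_one]

theorem Tc_exists_fam (M : Multiset ℕ) : ∃ (k : ℕ) (l : Fin k → ℕ), fam l = M := by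
  induction M using Quotient.inductionOn with
  | _ L =>
    refine ⟨L.length, L.get, ?_⟩
    rw [fam, Fin.univ_val_map]
    simp

theorem IsType.conj {V V' : Type} {r : Perm V} {M : Multiset ℕ} (h : IsType r M) (g : V ≃ V') :
    IsType (g.permCongr r) M := by
  obtain ⟨I, _, l, e, hM, he⟩ := h
  refine ⟨I, inferInstance, l, e.trans g, hM, ?_⟩
  intro i x
  simp [Equiv.permCongr_apply, he]

theorem fam_sum {I J : Type} [Fintype I] [Fintype J] (l : I → ℕ) (k : J → ℕ) :
    fam (Sum.elim l k) = fam l + fam k := by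
  classical
  unfold fam
  rw [← Finset.univ_disjSum_univ]
  simp [Finset.disjSum, Multiset.disjSum]

theorem IsType.sum {V V' : Type} {r : Perm V} {r' : Perm V'} {M M' : Multiset ℕ}
    (h : IsType r M) (h' : IsType r' M') : IsType (Equiv.sumCongr r r') (M + M') := by
  obtain ⟨I, _, l, e, hM, he⟩ := h
  obtain ⟨I', _, l', e', hM', he'⟩ := h'
  refine ⟨I ⊕ I', inferInstance, Sum.elim l l', (Equiv.sumSigmaDistrib _).trans
    (Equiv.sumCongr e e'), ?_, ?_⟩
  · rw [fam_sum, hM, hM']
  · rintro (i | i) x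
    · simp only [Equiv.sumSigmaDistrib, Equiv.trans_apply, Equiv.coe_fn_mk, Equiv.sumCongr_apply,
        Sum.map_inl]
      exact congrArg Sum.inl (he i x)
    · simp only [Equiv.sumSigmaDistrib, Equiv.trans_apply, Equiv.coe_fn_mk, Equiv.sumCongr_apply,
        Sum.map_inr]
      exact congrArg Sum.inr (he' i x)

theorem fam_sigma {G : Type} [Fintype G] {I : G → Type} [∀ g, Fintype (I g)]
    (l : ∀ g, I g → ℕ) :
    fam (fun p : Σ g, I g => l p.1 p.2) = ∑ g, fam (l g) := by
  classical
  unfold fam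
  rw [Finset.univ_sigma_univ.symm]
  simp only [Finset.sigma, Multiset.sigma, Multiset.map_bind, Multiset.map_map,
    Function.comp_def]
  rw [Finset.sum, Multiset.bind, Multiset.join]

theorem IsType.sigma {G : Type} [Fintype G] {V : G → Type} {r : ∀ g, Perm (V g)}
    {M : G → Multiset ℕ} (h : ∀ g, IsType (r g) (M g)) :
    IsType (Equiv.sigmaCongrRight r) (∑ g, M g) := by
  choose I hI l e hM he using h
  refine ⟨Σ g, I g, inferInstance, fun p => l p.1 p.2, (Equiv.sigmaAssoc
    (fun g (i : I g) => ZMod (l g i))).trans (Equiv.sigmaCongrRight e), ?_, ?_⟩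
  · rw [fam_sigma]
    exact Finset.sum_congr rfl fun g _ => hM g
  · rintro ⟨g, i⟩ x
    simp [Equiv.sigmaAssoc, he]

end Pool.Agent.H.Tc26
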