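import Pool.Agent.H.Tc26.Main

/-! Translation to embeddings (helper26, MP_0d0865_co). -/

set_option autoImplicit false

namespace Pool.Agent.H.Tc26

open Finset Equiv

/-- The statement in terms of embeddings. -/
def Dec (n : ℕ) {m : ℕ} (l : Fin m → ℕ) : Prop :=
  ∃ r : ℕ, ∃ f : Fin r → ((Σ i : Fin m, ZMod (l i)) ↪ Fin n),
    ∀ s : Finset (Fin n), s.card = 3 →
      ∃! p : Fin r × (Σ i : Fin m, ZMod (l i)),
        s = (Finset.range 3).image
          (fun j : ℕ => f p.1 ⟨p.2.1, p.2.2 + (j : ZMod (l p.2.1))⟩)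

theorem Conv_window {I V : Type} [DecidableEq V] {l : I → ℕ} (e : (Σ i : I, ZMod (l i)) → V)
    (p : V → V) (he : ∀ i x, p (e ⟨i, x⟩) = e ⟨i, x + 1⟩) (q : Σ i : I, ZMod (l i)) :
    (Finset.range 3).image (fun j : ℕ => e ⟨q.1, q.2 + (j : ZMod (l q.1))⟩) =
      {e q, p (e q), p (p (e q))} := by
  obtain ⟨i, x⟩ := q
  rw [he, he]
  have h3 : Finset.range 3 = {0, 1, 2} := by decide
  rw [h3]
  simp only [Finset.image_insert, Finset.image_singleton]
  congr 2
  · simp
  · simp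
  · have : x + ((2 : ℕ) : ZMod (l i)) = x + 1 + 1 := by push_cast; ring
    rw [this]

theorem P3.toDec {n m : ℕ} {l : Fin m → ℕ} (h : P3 (Fin n) (fam l)) : Dec n l := by
  obtain ⟨J, _, r, h1, h2⟩ := h
  choose e he using fun j => (h1 j).exists_equiv l rfl
  let E : J ≃ Fin (Fintype.card J) := Fintype.equivFin J
  refine ⟨Fintype.card J, fun i => (e (E.symm i)).toEmbedding, ?_⟩
  intro s hs
  obtain ⟨⟨j, x⟩, hx, hu⟩ := h2 s hs
  simp only at hx
  refine ⟨(E j, (e j).symm x), ?_, ?_⟩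
  · simp only
    have hw := Conv_window (e j) (r j) (he j) ((e j).symm x)
    rw [Equiv.apply_symm_apply, ← hx] at hw
    rw [← hw]
    simp
  · rintro ⟨i, q⟩ hq
    simp only at hq
    have hw := Conv_window (e (E.symm i)) (r (E.symm i)) (he (E.symm i)) q
    have h3 := hu (E.symm i, e (E.symm i) q) (by
      simp only
      rw [← hw, hq]
      rfl)
    simp only [Prod.mk.injEq] at h3
    obtain ⟨h4, h5⟩ := h3
    subst h4
    rw [Equiv.apply_symm_apply, ← h5, Equiv.symm_apply_apply]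

/-- The shift of the disjoint cycles. -/
def shift {I : Type} (l : I → ℕ) : Perm (Σ i : I, ZMod (l i)) :=
  Equiv.sigmaCongrRight fun _ => Equiv.addRight 1

theorem Dec.toP3 {n m : ℕ} {l : Fin m → ℕ} (hl : ∀ i, 0 < l i) (hs : ∑ i, l i = n)
    (h : Dec n l) : P3 (Fin n) (fam l) := by
  have : ∀ i, NeZero (l i) := fun i => ⟨(hl i).ne'⟩
  obtain ⟨r, f, hf⟩ := h
  let e : Fin r → ((Σ i : Fin m, ZMod (l i)) ≃ Fin n) := fun j =>
    Equiv.ofBijective (f j) ((Fintype.bijective_iff_injective_and_card _).2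
      ⟨(f j).injective, by
        rw [Fintype.card_sigma, Fintype.card_fin, ← hs]
        exact Finset.sum_congr rfl fun i _ => ZMod.card (l i)⟩)
  have he : ∀ j q, e j q = f j q := fun j q => rfl
  have hsh : ∀ j i x, (e j).permCongr (shift l) (e j ⟨i, x⟩) = e j ⟨i, x + 1⟩ := by
    intro j i x
    rw [Equiv.permCongr_apply, Equiv.symm_apply_apply]
    rfl
  refine ⟨Fin r, inferInstance, fun j => (e j).permCongr (shift l), ?_, ?_⟩
  · intro j
    exact ⟨Fin m, inferInstance, l, e j, rfl, hsh j⟩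
  · intro s hsc
    obtain ⟨⟨j, q⟩, hq, hu⟩ := hf s hsc
    simp only at hq
    refine ⟨(j, e j q), ?_, ?_⟩
    · simp only
      rw [← Conv_window (e j) _ (hsh j) q]
      exact hq
    · rintro ⟨j', x⟩ hx
      simp only at hx
      obtain ⟨q', rfl⟩ := (e j').surjective x
      rw [← Conv_window (e j') _ (hsh j') q'] at hx
      have := hu (j', q') hx
      simp only [Prod.mk.injEq] at this
      obtain ⟨rfl, rfl⟩ := this
      rfl

theorem Dec_main {c w a m : ℕ} (hc : 0 < c) (h4 : 4 ∣ c) (hw : 0 < w) (l : Fin m → ℕ)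
    (base : Dec (c * w) (fun _ : Fin w => c)) (hl : ∀ i, ∃ b ≤ a, l i = c * 2 ^ b)
    (hs : ∑ i, l i = c * w * 2 ^ a) : Dec (c * w * 2 ^ a) l := by
  obtain ⟨e, rfl⟩ := h4
  obtain ⟨k, rfl⟩ : ∃ k, w = k + 1 := ⟨w - 1, by omega⟩
  have he : 0 < e := by omega
  have h1 : P3 (Fin (4 * e * (k + 1))) (∑ _g : Fin (k + 1), {2 * (2 * e)}) := by
    have := base.toP3 (fun _ => hc) (by simp; ring)
    have h2 : fam (fun _ : Fin (k + 1) => 4 * e) = ∑ _g : Fin (k + 1), {2 * (2 * e)} := by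
      rw [fam, Finset.sum_const, Finset.card_univ, Fintype.card_fin, Multiset.nsmul_singleton]
      rw [Multiset.map_const']
      congr 1
      · simp
      · ring
    rwa [h2] at this
  have h2 : P3 (Fin ((k + 1) * (2 * (2 * e)))) (∑ _g : Fin (k + 1), {2 * (2 * e)}) :=
    h1.congr (finCongr (by ring))
  obtain ⟨f, hf⟩ := packing (c := 2 * (2 * e)) (by positivity) a (Fin (k + 1)) (fam l) (by
    intro x hx
    obtain ⟨i, -, rfl⟩ := Multiset.mem_map.1 hx
    obtain ⟨b, hb, h⟩ := hl i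
    exact ⟨b, hb, by rw [h]; ring⟩) (by
    have : (fam l).sum = ∑ i, l i := rfl
    rw [this, hs, Fintype.card_fin]; ring)
  have h3 := P3_forest he k h2 a f
  rw [hf] at h3
  exact (h3.congr (finCongr (by ring))).toDec

/-- `K_4^3` is one tight cycle of length 4. -/
theorem Conv_rot_cov : ∀ x : Fin 4, x = (finRotate 4 ^ (x.val)) 0 := by decide

theorem Conv_rot_tri : ∀ s : Finset (Fin 4), s.card = 3 → ∃ q : Unit × Fin 4,
    s = {q.2, finRotate 4 q.2, finRotate 4 (finRotate 4 q.2)} ∧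
    ∀ q' : Unit × Fin 4, s = {q'.2, finRotate 4 q'.2, finRotate 4 (finRotate 4 q'.2)} →
      q' = q := by decide

theorem Dec_four : Dec (4 * 1) (fun _ : Fin 1 => 4) := by
  have h : P3 (Fin 4) (fam (fun _ : Fin 1 => 4)) := by
    refine ⟨Unit, inferInstance, fun _ => finRotate 4, ?_, Conv_rot_tri⟩
    intro _
    refine IsType.of_reps (finRotate 4) _ (fun _ => by norm_num) (fun _ => 0) ?_ ?_ (by simp)
    · intro _
      change (finRotate 4 ^ 4) 0 = 0
      decide
    · intro x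
      exact ⟨0, x.val, Conv_rot_cov x⟩
  exact h.toDec

end Pool.Agent.H.Tc26
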