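import Pool.Agent.H.Tc26.Lift

/-! The doubling step (helper26, MP_0d0865_co). -/

set_option autoImplicit false

namespace Pool.Agent.H.Tc26

open Finset Equiv

/-- The triples of `V` are decomposed into tight cycle factors of type `M`. -/
def P3 (V : Type) [DecidableEq V] (M : Multiset ℕ) : Prop :=
  ∃ (J : Type) (_ : Fintype J) (r : J → Perm V), (∀ j, IsType (r j) M) ∧
    ∀ s : Finset V, s.card = 3 → ∃! q : J × V, s = {q.2, r q.1 q.2, r q.1 (r q.1 q.2)}

/-- Labelled decomposition of the complete graph with all edges doubled. -/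
def L2 (V : Type) (M : Multiset ℕ) : Prop :=
  ∃ (J : Type) (_ : Fintype J) (r : J → Perm V) (l : J → V → Bool), (∀ j, IsType (r j) M) ∧
    ∀ a b : V, a ≠ b → ∀ c : Bool, ∃! q : J × Bool,
      (q.2 = true ∧ r q.1 a = b ∧ l q.1 b = c) ∨ (q.2 = false ∧ r q.1 b = a ∧ l q.1 b = !c)

theorem IsType.pos {V : Type} [Finite V] {p : Perm V} {M : Multiset ℕ} (h : IsType p M) :
    ∀ m ∈ M, 0 < m := by
  obtain ⟨I, _, l, e, hM, -⟩ := h
  intro m hm
  rw [← hM, fam, Multiset.mem_map] at hm
  obtain ⟨i, -, rfl⟩ := hm
  exact Tc_pos_model e i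

theorem IsType.ne {V : Type} {p : Perm V} {M : Multiset ℕ} (h : IsType p M)
    (h3 : ∀ m ∈ M, 3 ≤ m) (x : V) : p x ≠ x ∧ p (p x) ≠ x := by
  obtain ⟨I, _, l, e, hM, he⟩ := h
  obtain ⟨⟨i, y⟩, rfl⟩ := e.surjective x
  have hi : 3 ≤ l i := h3 _ (by rw [← hM]; exact Multiset.mem_map_of_mem _ (Finset.mem_univ i))
  have key : ∀ k : ℕ, 0 < k → k < l i → (k : ZMod (l i)) ≠ 0 := by
    intro k h0 hk h
    rw [ZMod.natCast_eq_zero_iff] at h
    exact absurd (Nat.le_of_dvd h0 h) (by omega)
  constructor
  · rw [he]
    intro h
    have h1 := e.injective h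
    simp only [Sigma.mk.injEq, heq_eq_eq, true_and, add_eq_left] at h1
    exact key 1 (by norm_num) (by omega) (by simpa using h1)
  · rw [he, he]
    intro h
    have h1 := e.injective h
    simp only [Sigma.mk.injEq, heq_eq_eq, true_and] at h1
    apply key 2 (by norm_num) (by omega)
    have h2 : y + 1 + 1 = y + ((2 : ℕ) : ZMod (l i)) := by push_cast; ring
    rw [h2, add_eq_left] at h1
    exact h1

theorem Tc_bool_ne {a b : Bool} (h : a ≠ b) : a = !b := by revert a b; decide

theorem P3.double {V : Type} [Fintype V] [DecidableEq V] {M Y : Multiset ℕ}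
    (hM : ∀ m ∈ M, 4 ∣ m) (hY : ∀ y ∈ Y, 2 ∣ y) (h3 : P3 V (M + Y.map (2 * ·)))
    (h2 : L2 V (M + Y + Y)) : P3 (V × Bool) ((M + Y + Y).map (2 * ·)) := by
  obtain ⟨J, _, r, hr, hc⟩ := h3
  obtain ⟨K, _, t, l, ht, hl⟩ := h2
  choose L E hL hE using fun j => (hr j).skew hM hY
  have hne : ∀ j x, r j x ≠ x ∧ r j (r j x) ≠ x := by
    intro j x
    refine (hr j).ne ?_ x
    intro m hm
    have h0 := (hr j).pos m hm
    have h4 : 4 ∣ m := by
      rcases Multiset.mem_add.1 hm with h | h
      · exact hM m h
      · obtain ⟨y, hy, rfl⟩ := Multiset.mem_map.1 h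
        obtain ⟨z, rfl⟩ := hY y hy
        exact ⟨z, by ring⟩
    have := Nat.le_of_dvd h0 h4
    omega
  refine ⟨(J × (Bool → Bool)) ⊕ K, inferInstance, Sum.elim (fun q => skew (r q.1)
    fun x => xor (q.2 (L q.1 x)) (E q.1 x)) (fun k => stack (t k) (l k)), ?_, ?_⟩
  · rintro (⟨j, c⟩ | k)
    · exact hE j c
    · exact (ht k).stack (l k)
  intro s hs
  -- windows of the stacks contain a fibre
  have hstack : ∀ k (y : V) (d : Bool), s = {(y, d), stack (t k) (l k) (y, d),
      stack (t k) (l k) (stack (t k) (l k) (y, d))} →
      (d = l k y ∧ s = {(y, l k y), (y, !l k y), (t k y, l k (t k y))}) ∨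
      (d = !l k y ∧ s = {(y, !l k y), (t k y, l k (t k y)), (t k y, !l k (t k y))}) := by
    intro k y d h
    by_cases hd : d = l k y
    · left; subst hd
      rw [stack_first, stack_last] at h
      exact ⟨rfl, h⟩
    · right
      have hd' := Tc_bool_ne hd
      subst hd'
      rw [stack_last, stack_first] at h
      exact ⟨rfl, h⟩
  by_cases hT : ∀ p ∈ s, ∀ q ∈ s, p.1 = q.1 → p = q
  · -- transversal triples
    have hcard : (s.image Prod.fst).card = 3 := by
      rw [Finset.card_image_of_injOn, hs]
      intro p hp q hq h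
      exact hT p hp q hq h
    obtain ⟨⟨j, x⟩, hx, huniq⟩ := hc _ hcard
    simp only at hx
    obtain ⟨hn1, hn2⟩ := hne j x
    obtain ⟨hn3, -⟩ := hne j (r j x)
    have hmem : ∀ y, y ∈ s.image Prod.fst → ∃ b, (y, b) ∈ s := by
      intro y hy
      obtain ⟨⟨y', b⟩, hb, rfl⟩ := Finset.mem_image.1 hy
      exact ⟨b, hb⟩
    obtain ⟨a, ha⟩ := hmem x (by rw [hx]; simp)
    obtain ⟨b, hb⟩ := hmem (r j x) (by rw [hx]; simp)
    obtain ⟨c, hc'⟩ := hmem (r j (r j x)) (by rw [hx]; simp)
    have hsE : s = {(x, a), (r j x, b), (r j (r j x), c)} := by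
      symm
      apply Finset.eq_of_subset_of_card_le
      · intro p hp
        simp only [Finset.mem_insert, Finset.mem_singleton] at hp
        rcases hp with rfl | rfl | rfl <;> assumption
      · rw [hs, Finset.card_eq_three.2 ⟨(x, a), (r j x, b), (r j (r j x), c), ?_, ?_, ?_, rfl⟩]
        · intro h; exact hn1 (congrArg Prod.fst h).symm
        · intro h; exact hn2 (congrArg Prod.fst h).symm
        · intro h; exact hn3 (congrArg Prod.fst h).symm
    let f : Bool → Bool := fun u => if u = L j x then xor (xor a b) (E j x)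
      else xor (xor b c) (E j (r j x))
    have hf1 : f (L j x) = xor (xor a b) (E j x) := by simp [f]
    have hf2 : f (L j (r j x)) = xor (xor b c) (E j (r j x)) := by
      rw [hL]; simp [f]
    refine ⟨(Sum.inl (j, f), (x, a)), ?_, ?_⟩
    · simp only [Sum.elim_inl, skew_apply, hf1, hf2]
      rw [hsE]
      have e1 : (a ^^ (a ^^ b ^^ E j x ^^ E j x)) = b := by
        generalize E j x = u; clear * -; revert a b u; decide
      have e2 : (b ^^ (b ^^ c ^^ E j (r j x) ^^ E j (r j x))) = c := by
        generalize E j (r j x) = u; clear * -; revert b c u; decide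
      rw [e1, e2]
    · rintro ⟨(⟨j', f'⟩ | k), ⟨y, d⟩⟩ hq
      · simp only [Sum.elim_inl, skew_apply] at hq
        have him : s.image Prod.fst = {y, r j' y, r j' (r j' y)} := by
          rw [hq]; simp [Finset.image_insert]
        have h1 := huniq (j', y) him
        simp only [Prod.mk.injEq] at h1
        obtain ⟨rfl, rfl⟩ := h1
        have hd : d = a := by
          have : (y, d) ∈ s := by rw [hq]; simp
          simpa using hT _ this _ ha rfl
        subst hd
        have hb' : (d ^^ (f' (L j' y) ^^ E j' y)) = b := by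
          have : (r j' y, (d ^^ (f' (L j' y) ^^ E j' y))) ∈ s := by rw [hq]; simp
          simpa using hT _ this _ hb rfl
        rw [hb'] at hq
        have hc'' : (b ^^ (f' (L j' (r j' y)) ^^ E j' (r j' y))) = c := by
          have : (r j' (r j' y), (b ^^ (f' (L j' (r j' y)) ^^ E j' (r j' y)))) ∈ s := by
            rw [hq]; simp
          simpa using hT _ this _ hc' rfl
        have hff : f' = f := by
          funext u
          by_cases hu : u = L j' y
          · rw [hu, hf1, ← hb']
            generalize f' (L j' y) = p1; generalize E j' y = p2; clear * -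
            revert d p1 p2; decide
          · have hu' : u = L j' (r j' y) := by rw [hL]; exact Tc_bool_ne hu
            rw [hu', hf2, ← hc'']
            generalize f' (L j' (r j' y)) = p1; generalize E j' (r j' y) = p2; clear * -
            revert b p1 p2; decide
        rw [hff]
      · exfalso
        simp only [Sum.elim_inr] at hq
        rcases hstack k y d hq with ⟨-, h⟩ | ⟨-, h⟩
        · have h1 : (y, l k y) ∈ s := by rw [h]; simp
          have h2 : (y, !l k y) ∈ s := by rw [h]; simp
          have := hT _ h1 _ h2 rfl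
          simp at this
        · have h1 : (t k y, l k (t k y)) ∈ s := by rw [h]; simp
          have h2 : (t k y, !l k (t k y)) ∈ s := by rw [h]; simp
          have := hT _ h1 _ h2 rfl
          simp at this
  · -- triples containing a fibre
    push Not at hT
    obtain ⟨⟨a, u⟩, hp, ⟨a', v⟩, hq, haa, hpq⟩ := hT
    simp only at haa
    subst haa
    have huv : v = !u := by
      apply Tc_bool_ne
      rintro rfl
      exact hpq rfl
    subst huv
    have hfib : ∀ w, (a, w) ∈ s := by
      intro w
      by_cases hw : w = u
      · rw [hw]; exact hp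
      · rw [Tc_bool_ne hw]; exact hq
    obtain ⟨⟨b, e⟩, hz, hz1⟩ : ∃ z ∈ s, z.1 ≠ a := by
      by_contra hcon
      push Not at hcon
      have : s ⊆ {(a, false), (a, true)} := by
        rintro ⟨z1, z2⟩ hz
        have := hcon _ hz
        simp only at this
        subst this
        cases z2 <;> simp
      have h1 := Finset.card_le_card this
      have h2 : ({(a, false), (a, true)} : Finset (V × Bool)).card ≤ 2 := Finset.card_le_two
      omega
    simp only at hz1
    have hsE : s = {(a, false), (a, true), (b, e)} := by
      symm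
      apply Finset.eq_of_subset_of_card_le
      · intro p hp'
        simp only [Finset.mem_insert, Finset.mem_singleton] at hp'
        rcases hp' with rfl | rfl | rfl
        · exact hfib _
        · exact hfib _
        · exact hz
      · rw [hs, Finset.card_eq_three.2 ⟨(a, false), (a, true), (b, e), ?_, ?_, ?_, rfl⟩]
        · simp
        · intro h; exact hz1 (congrArg Prod.fst h).symm
        · intro h; exact hz1 (congrArg Prod.fst h).symm
    have hb1 : ∀ z w, (z, w) ∈ s → z ≠ a → z = b ∧ w = e := by
      intro z w h hza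
      rw [hsE] at h
      simp only [Finset.mem_insert, Prod.mk.injEq, Finset.mem_singleton] at h
      rcases h with ⟨h, -⟩ | ⟨h, -⟩ | h
      · exact absurd h hza
      · exact absurd h hza
      · exact h
    have hfa : ∀ z w, (z, w) ∈ s → (z, !w) ∈ s → z = a := by
      intro z w h h'
      by_contra hza
      have e1 := (hb1 z w h hza).2
      have e2 := (hb1 z _ h' hza).2
      rw [← e1] at e2
      simp at e2
    obtain ⟨⟨k, dir⟩, hk, huniq⟩ := hl a b (Ne.symm hz1) e
    simp only at hk
    have h2c : ∀ x y : V × Bool, s ≠ {x, y} := by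
      intro x y h
      have h2 : ({x, y} : Finset (V × Bool)).card ≤ 2 := Finset.card_le_two
      rw [← h] at h2
      omega
    refine ⟨(Sum.inr k, if dir = true then (a, l k a) else (b, e)), ?_, ?_⟩
    · simp only [Sum.elim_inr]
      rcases hk with ⟨hd, h1, h2⟩ | ⟨hd, h1, h2⟩
      · rw [hd]
        simp only [if_true]
        rw [stack_first, stack_last, h1, h2, hsE]
        cases l k a
        · rfl
        · ext z; simp only [Finset.mem_insert, Finset.mem_singleton, Bool.not_true]; tauto
      · rw [hd]
        simp only [Bool.false_eq_true, if_false]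
        have he : e = !l k b := by rw [h2]; simp
        rw [hsE, he, stack_last, h1, stack_first]
        cases l k a
        · ext z; simp only [Finset.mem_insert, Finset.mem_singleton, Bool.not_false]; tauto
        · ext z; simp only [Finset.mem_insert, Finset.mem_singleton, Bool.not_true]; tauto
    · rintro ⟨(⟨j', f'⟩ | k'), ⟨y, d⟩⟩ hq'
      · exfalso
        simp only [Sum.elim_inl, skew_apply] at hq'
        obtain ⟨hn1, hn2⟩ := hne j' y
        obtain ⟨hn3, -⟩ := hne j' (r j' y)
        have e1 := hfib false
        have e2 := hfib true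
        rw [hq'] at e1 e2
        simp only [Finset.mem_insert, Prod.mk.injEq, Finset.mem_singleton] at e1 e2
        rcases e1 with ⟨e1, e1'⟩ | ⟨e1, e1'⟩ | ⟨e1, e1'⟩ <;>
          rcases e2 with ⟨e2, e2'⟩ | ⟨e2, e2'⟩ | ⟨e2, e2'⟩
        · rw [← e1'] at e2'; exact absurd e2' (by decide)
        · exact hn1 (e2.symm.trans e1)
        · exact hn2 (e2.symm.trans e1)
        · exact hn1 (e1.symm.trans e2)
        · rw [← e1'] at e2'; exact absurd e2' (by decide)
        · exact hn3 (e2.symm.trans e1)
        · exact hn2 (e1.symm.trans e2)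
        · exact hn3 (e1.symm.trans e2)
        · rw [← e1'] at e2'; exact absurd e2' (by decide)
      · simp only [Sum.elim_inr] at hq'
        rcases hstack k' y d hq' with ⟨hd, h⟩ | ⟨hd, h⟩
        · have m1 : (y, l k' y) ∈ s := by rw [h]; simp
          have m2 : (y, !l k' y) ∈ s := by rw [h]; simp
          have m3 : (t k' y, l k' (t k' y)) ∈ s := by rw [h]; simp
          have hya := hfa _ _ m1 m2
          subst hya
          have hty : t k' y ≠ y := by
            intro hty
            rw [hty] at h
            apply h2c (y, l k' y) (y, !l k' y)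
            rw [h]
            ext z; simp only [Finset.mem_insert, Finset.mem_singleton]; tauto
          obtain ⟨hb2, hb3⟩ := hb1 _ _ m3 hty
          rw [hb2] at hb3
          have := huniq (k', true) (Or.inl ⟨rfl, hb2, hb3⟩)
          simp only [Prod.mk.injEq] at this
          obtain ⟨rfl, rfl⟩ := this
          simp [hd]
        · have m1 : (y, !l k' y) ∈ s := by rw [h]; simp
          have m2 : (t k' y, l k' (t k' y)) ∈ s := by rw [h]; simp
          have m3 : (t k' y, !l k' (t k' y)) ∈ s := by rw [h]; simp
          have hya := hfa _ _ m2 m3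
          have hty : y ≠ a := by
            intro hty
            rw [hty] at hya h
            rw [hya] at h
            apply h2c (a, l k' a) (a, !l k' a)
            rw [h]
            ext z; simp only [Finset.mem_insert, Finset.mem_singleton]; tauto
          obtain ⟨hb2, hb3⟩ := hb1 _ _ m1 hty
          subst hb2
          have hle : l k' y = !e := by rw [← hb3]; simp
          have := huniq (k', false) (Or.inr ⟨rfl, hya, hle⟩)
          simp only [Prod.mk.injEq] at this
          obtain ⟨rfl, rfl⟩ := this
          simp [hd, hb3]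

end Pool.Agent.H.Tc26
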