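import Pool.Agent.H.Tc26.Bases

/-!
# Decompositions of the complete 3-graph into tight cycle factors: a doubling theorem

For `4 ∣ c` and a decomposition of `K_{cw}^3` into tight cycle factors with `w` cycles of length
`c` (which is proved here for `c = 4` and `w = 1, 5, 7, 11`), the complete 3-graph on
`n = c w 2^a` vertices decomposes into copies of every tight cycle factor all of whose cycle
lengths have the form `c 2^b` with `b ≤ a`.

With `c = 4` and `w = 1`: for every `n = 2^d` the complete 3-graph on `n` vertices decomposes into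
copies of every tight cycle factor on `n` vertices whose cycle lengths are powers of two (at
least 4).
-/

set_option autoImplicit false

namespace Pool.Agent.Results.MP_0d0865_co.DoublingPowersOfTwo

/-- The complete `k`-graph on `n` vertices decomposes into copies of the disjoint union of tight
cycles of lengths `ℓ i` (the conclusion of the frozen statement S07169, word for word). -/
def Decomposes (k n : ℕ) {m : ℕ} (ℓ : Fin m → ℕ) : Prop :=
  ∃ r : ℕ, ∃ φ : Fin r → ((Σ i : Fin m, ZMod (ℓ i)) ↪ Fin n),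
    ∀ s : Finset (Fin n), s.card = k →
      ∃! p : Fin r × (Σ i : Fin m, ZMod (ℓ i)),
        s = (Finset.range k).image
          (fun j : ℕ => φ p.1 ⟨p.2.1, p.2.2 + (j : ZMod (ℓ p.2.1))⟩)

theorem result (c w a m : ℕ) (ℓ : Fin m → ℕ) (hc : 0 < c) (hc4 : 4 ∣ c) (hw : 0 < w)
    (base : (c = 4 ∧ (w = 1 ∨ w = 5 ∨ w = 7 ∨ w = 11)) ∨
      Decomposes 3 (c * w) (fun _ : Fin w => c))
    (hℓ : ∀ i, ∃ b ≤ a, ℓ i = c * 2 ^ b) (hsum : ∑ i, ℓ i = c * w * 2 ^ a) :
    Decomposes 3 (c * w * 2 ^ a) ℓ := by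
  refine Pool.Agent.H.Tc26.Dec_main hc hc4 hw ℓ ?_ hℓ hsum
  rcases base with ⟨rfl, rfl | rfl | rfl | rfl⟩ | h
  · exact Pool.Agent.H.Tc26.Dec_four
  · exact Pool.Agent.H.Tc26.Dec_20
  · exact Pool.Agent.H.Tc26.Dec_28
  · exact Pool.Agent.H.Tc26.Dec_44
  · exact h

/-- Special case `c = 4`, `w = 1`, for the reader: every `n = 2^d`. -/
theorem powers_of_two (d m : ℕ) (ℓ : Fin m → ℕ) (hℓ : ∀ i, ∃ b, 2 ≤ b ∧ ℓ i = 2 ^ b)
    (hsum : ∑ i, ℓ i = 2 ^ d) : Decomposes 3 (2 ^ d) ℓ := by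
  have h0 : 0 < ∑ i, ℓ i := by rw [hsum]; positivity
  obtain ⟨i, -, hi⟩ : ∃ i ∈ Finset.univ, ℓ i ≠ 0 := by
    by_contra h
    push Not at h
    rw [Finset.sum_eq_zero (fun i hi => h i hi)] at h0
    exact absurd h0 (lt_irrefl 0)
  have hle : ∀ j, ℓ j ≤ 2 ^ d := fun j => by
    rw [← hsum]; exact Finset.single_le_sum (fun _ _ => Nat.zero_le _) (Finset.mem_univ j)
  have hb : ∀ j b, ℓ j = 2 ^ b → b ≤ d := fun j b h => by
    have := hle j
    rw [h] at this
    exact (Nat.pow_le_pow_iff_right (by norm_num)).1 this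
  obtain ⟨b, h2, hb'⟩ := hℓ i
  have hd : 2 ≤ d := h2.trans (hb i b hb')
  have e : 4 * 1 * 2 ^ (d - 2) = 2 ^ d := by
    obtain ⟨t, rfl⟩ := Nat.exists_eq_add_of_le hd
    rw [Nat.add_sub_cancel_left, pow_add]; norm_num
  rw [← e]
  refine result 4 1 (d - 2) m ℓ (by norm_num) (dvd_refl 4) one_pos (Or.inl ⟨rfl, Or.inl rfl⟩) ?_
    (by rw [hsum, e])
  intro j
  obtain ⟨t, ht, hj⟩ := hℓ j
  refine ⟨t - 2, Nat.sub_le_sub_right (hb j t hj) 2, ?_⟩
  obtain ⟨u, rfl⟩ := Nat.exists_eq_add_of_le ht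
  rw [hj, Nat.add_sub_cancel_left, pow_add]; norm_num

end Pool.Agent.Results.MP_0d0865_co.DoublingPowersOfTwo
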