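import Pool.Agent.H.Tc26.Zig

/-! One-factorizations and the decomposition for a partition into groups
(helper26, MP_0d0865_co). -/

set_option autoImplicit false

namespace Pool.Agent.H.Tc26

open Finset Equiv

/-- `t` is a one-factorization of the complete graph on `W`. -/
def OneFact {G W R : Type} (t : R → (G × Bool ≃ W)) : Prop :=
  ∀ u v : W, u ≠ v → ∃! q : R × (G × Bool), t q.1 q.2 = u ∧ t q.1 (q.2.1, !q.2.2) = v

/-- The copies of `H × Bool` over the pairs of a one-factor. -/
def groupEquiv {G W : Type} (H : Type) (t : G × Bool ≃ W) : (Σ _ : G, H × Bool) ≃ W × H where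
  toFun p := (t (p.1, p.2.2), p.2.1)
  invFun q := ⟨(t.symm q.1).1, (q.2, (t.symm q.1).2)⟩
  left_inv := by rintro ⟨g, x, b⟩; simp
  right_inv := by rintro ⟨u, x⟩; simp

theorem For_apply {G W H : Type} (t : G × Bool ≃ W) (p : G → Perm (H × Bool)) (g : G) (b : Bool)
    (x : H) : (groupEquiv H t).permCongr (Equiv.sigmaCongrRight p) (t (g, b), x) =
      (t (g, (p g (x, b)).2), (p g (x, b)).1) := by
  simp [groupEquiv, Equiv.permCongr_apply]

theorem For_iff {G W H : Type} (t : G × Bool ≃ W) (p : G → Perm (H × Bool)) (u v : W) (x y : H) :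
    (groupEquiv H t).permCongr (Equiv.sigmaCongrRight p) (u, x) = (v, y) ↔
      ∃ g b b', u = t (g, b) ∧ v = t (g, b') ∧ p g (x, b) = (y, b') := by
  constructor
  · intro h
    obtain ⟨⟨g, b⟩, rfl⟩ := t.surjective u
    rw [For_apply] at h
    simp only [Prod.mk.injEq] at h
    exact ⟨g, b, (p g (x, b)).2, rfl, h.1.symm, Prod.ext h.2 rfl⟩
  · rintro ⟨g, b, b', rfl, rfl, h⟩
    rw [For_apply, h]

theorem KdOn.forest {G W R H J J' : Type} [Fintype G] {t : R → (G × Bool ≃ W)} (ht : OneFact t)
    (r0 : R) (M : G → Multiset ℕ) (hK : ∀ g, KdOn (H × Bool) J (M g))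
    (hB : ∀ g, BdOn H J' (M g)) :
    KdOn (W × H) (J ⊕ ({r : R // r ≠ r0} × J')) (∑ g, M g) := by
  choose rK lK aK bK using hK
  choose rB aB sB cB using hB
  refine ⟨Sum.elim (fun j => (groupEquiv H (t r0)).permCongr (Equiv.sigmaCongrRight
      fun g => rK g j)) (fun q => (groupEquiv H (t q.1)).permCongr (Equiv.sigmaCongrRight
      fun g => rB g q.2)),
    Sum.elim (fun j q => lK ((t r0).symm q.1).1 j (q.2, ((t r0).symm q.1).2))
      (fun _ _ => false), ?_, ?_⟩
  · rintro (j | q)
    · exact (IsType.sigma fun g => aK g j).conj _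
    · exact (IsType.sigma fun g => aB g q.2).conj _
  have hsw : ∀ (q : {r : R // r ≠ r0}) (j' : J') (u v : W) (x y : H),
      (groupEquiv H (t q)).permCongr (Equiv.sigmaCongrRight fun g => rB g j') (u, x) = (v, y) ↔
      ∃ g b, u = t q (g, b) ∧ v = t q (g, !b) ∧ rB g j' (x, b) = (y, !b) := by
    intro q j' u v x y
    rw [For_iff]
    constructor
    · rintro ⟨g, b, b', h1, h2, h3⟩
      have h4 := sB g j' (x, b)
      rw [h3] at h4
      simp only at h4
      subst h4
      exact ⟨g, b, h1, h2, h3⟩
    · rintro ⟨g, b, h1, h2, h3⟩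
      exact ⟨g, b, _, h1, h2, h3⟩
  rintro ⟨u, x⟩ ⟨v, y⟩ hne c
  obtain ⟨⟨g, b⟩, rfl⟩ := (t r0).surjective u
  obtain ⟨⟨g', b'⟩, rfl⟩ := (t r0).surjective v
  by_cases hg : g = g'
  · subst hg
    have hxy : (x, b) ≠ (y, b') := by
      intro h
      simp only [Prod.mk.injEq] at h
      exact hne (by rw [h.1, h.2])
    obtain ⟨⟨j, d⟩, hj, hu⟩ := bK g (x, b) (y, b') hxy c
    have hinl : ∀ (j : J) (x y : H) (b b' : Bool),
        (groupEquiv H (t r0)).permCongr (Equiv.sigmaCongrRight fun g => rK g j)
          (t r0 (g, b), x) = (t r0 (g, b'), y) ↔ rK g j (x, b) = (y, b') := by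
      intro j x y b b'
      rw [For_apply]
      simp only [Prod.mk.injEq, EmbeddingLike.apply_eq_iff_eq, true_and]
      rw [and_comm, ← Prod.ext_iff (x := rK g j (x, b)) (y := (y, b'))]
    have hinr : ∀ (q : {r : R // r ≠ r0}) (j' : J') (x y : H) (b b' : Bool),
        (groupEquiv H (t q)).permCongr (Equiv.sigmaCongrRight fun g => rB g j')
          (t r0 (g, b), x) ≠ (t r0 (g, b'), y) := by
      intro q j' x y b b' h
      rw [hsw] at h
      obtain ⟨g1, b1, h1, h2, -⟩ := h
      have huv : t r0 (g, b) ≠ t r0 (g, b') := by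
        rw [h1, h2]
        intro h3
        have := (t q).injective h3
        simp at this
      have hbb : b' = !b := Tc_bool_ne fun h3 => huv (by rw [h3])
      obtain ⟨z, -, hz⟩ := ht _ _ huv
      have e1 := hz (r0, (g, b)) ⟨rfl, by rw [hbb]⟩
      have e2 := hz (q, (g1, b1)) ⟨h1.symm, h2.symm⟩
      have := e2.trans e1.symm
      simp only [Prod.mk.injEq] at this
      exact q.2 this.1
    refine ⟨(Sum.inl j, d), ?_, ?_⟩
    · simp only [Sum.elim_inl, hinl, Equiv.symm_apply_apply]
      exact hj
    · rintro ⟨j' | ⟨q, j'⟩, d'⟩ hq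
      · simp only [Sum.elim_inl, hinl, Equiv.symm_apply_apply] at hq
        have := hu (j', d') hq
        simp only [Prod.mk.injEq] at this
        rw [this.1, this.2]
      · exfalso
        simp only [Sum.elim_inr] at hq
        rcases hq with ⟨-, h, -⟩ | ⟨-, h, -⟩ <;> exact hinr _ _ _ _ _ _ h
  · have huv : t r0 (g, b) ≠ t r0 (g', b') := by
      intro h
      have := (t r0).injective h
      simp only [Prod.mk.injEq] at this
      exact hg this.1
    obtain ⟨⟨ρ, g1, b1⟩, ⟨h1, h2⟩, hz⟩ := ht _ _ huv
    simp only at h1 h2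
    have hρ : ρ ≠ r0 := by
      rintro rfl
      have e1 := (t ρ).injective h1
      have e2 := (t ρ).injective h2
      simp only [Prod.mk.injEq] at e1 e2
      exact hg (e1.1.symm.trans e2.1)
    obtain ⟨j1, hj1, hu1⟩ := cB g1 (x, b1) (y, !b1) (by simp)
    obtain ⟨j2, hj2, hu2⟩ := cB g1 (y, !b1) (x, b1) (by simp)
    have hno : ∀ (j : J) (x y : H) (g g' : G) (b b' : Bool), g ≠ g' →
        (groupEquiv H (t r0)).permCongr (Equiv.sigmaCongrRight fun g => rK g j)
          (t r0 (g, b), x) ≠ (t r0 (g', b'), y) := by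
      intro j x y g g' b b' hg h
      rw [For_iff] at h
      obtain ⟨g2, b2, b3, h3, h4, -⟩ := h
      have e1 := (t r0).injective h3
      have e2 := (t r0).injective h4
      simp only [Prod.mk.injEq] at e1 e2
      exact hg (e1.1.trans e2.1.symm)
    cases c
    · refine ⟨(Sum.inr (⟨ρ, hρ⟩, j1), true), Or.inl ⟨rfl, ?_, rfl⟩, ?_⟩
      · exact (hsw ⟨ρ, hρ⟩ j1 _ _ _ _).2 ⟨g1, b1, h1.symm, h2.symm, hj1⟩
      · rintro ⟨j' | ⟨q, j'⟩, d'⟩ hq
        · exfalso
          simp only [Sum.elim_inl] at hq
          rcases hq with ⟨-, h, -⟩ | ⟨-, h, -⟩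
          · exact hno _ _ _ _ _ _ _ hg h
          · exact hno _ _ _ _ _ _ _ (Ne.symm hg) h
        · simp only [Sum.elim_inr] at hq
          rcases hq with ⟨h0, h, -⟩ | ⟨-, -, h⟩
          · rw [hsw] at h
            obtain ⟨g2, b2, h3, h4, h5⟩ := h
            have e := hz (q, (g2, b2)) ⟨h3.symm, h4.symm⟩
            simp only [Prod.mk.injEq] at e
            obtain ⟨e1, rfl, rfl⟩ := e
            have hq' : q = ⟨ρ, hρ⟩ := Subtype.ext e1
            rw [hq', hu1 j' h5, h0]
          · simp at h
    · refine ⟨(Sum.inr (⟨ρ, hρ⟩, j2), false), Or.inr ⟨rfl, ?_, rfl⟩, ?_⟩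
      · exact (hsw ⟨ρ, hρ⟩ j2 _ _ _ _).2 ⟨g1, !b1, h2.symm, by
          rw [Bool.not_not]; exact h1.symm, by rw [Bool.not_not]; exact hj2⟩
      · rintro ⟨j' | ⟨q, j'⟩, d'⟩ hq
        · exfalso
          simp only [Sum.elim_inl] at hq
          rcases hq with ⟨-, h, -⟩ | ⟨-, h, -⟩
          · exact hno _ _ _ _ _ _ _ hg h
          · exact hno _ _ _ _ _ _ _ (Ne.symm hg) h
        · simp only [Sum.elim_inr] at hq
          rcases hq with ⟨-, -, h⟩ | ⟨h0, h, -⟩
          · simp at h
          · rw [hsw] at h
            obtain ⟨g2, b2, h3, h4, h5⟩ := h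
            have e := hz (q, (g2, !b2)) ⟨h4.symm, by
              simp only [Bool.not_not]; exact h3.symm⟩
            simp only [Prod.mk.injEq] at e
            obtain ⟨e1, rfl, e3⟩ := e
            subst e3
            rw [Bool.not_not] at hu2
            have hq' : q = ⟨ρ, hρ⟩ := Subtype.ext e1
            rw [hq', hu2 j' h5, h0]

section onefact

variable (k : ℕ)

/-- The standard one-factor. -/
def ofFun (r : ZMod (2 * k + 1)) (q : Fin (k + 1) × Bool) : Option (ZMod (2 * k + 1)) :=
  if q.1.val = 0 then (if q.2 then some r else none)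
  else if q.2 then some (r - (q.1.val : ZMod (2 * k + 1)))
  else some (r + (q.1.val : ZMod (2 * k + 1)))

theorem For_val (g : Fin (k + 1)) : ((g.val : ZMod (2 * k + 1))).val = g.val := by
  rw [ZMod.val_natCast, Nat.mod_eq_of_lt]
  have := g.2
  omega

theorem For_cast_inj {g g' : Fin (k + 1)}
    (h : (g.val : ZMod (2 * k + 1)) = (g'.val : ZMod (2 * k + 1))) : g = g' := by
  have := congrArg ZMod.val h
  rw [For_val, For_val] at this
  exact Fin.ext this

theorem For_cast_add {g g' : Fin (k + 1)} (hg : g.val ≠ 0)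
    (h : (g.val : ZMod (2 * k + 1)) + (g'.val : ZMod (2 * k + 1)) = 0) : False := by
  rw [← Nat.cast_add, ZMod.natCast_eq_zero_iff] at h
  have h1 := Nat.le_of_dvd (by omega) h
  have := g.2
  have := g'.2
  omega

theorem For_cast_ne {g : Fin (k + 1)} (hg : g.val ≠ 0)
    (h : (g.val : ZMod (2 * k + 1)) = 0) : False := by
  rw [ZMod.natCast_eq_zero_iff] at h
  have h1 := Nat.le_of_dvd (by omega) h
  have := g.2
  omega

theorem ofFun_inj (r : ZMod (2 * k + 1)) : Function.Injective (ofFun k r) := by
  rintro ⟨g, b⟩ ⟨g', b'⟩ h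
  simp only [ofFun] at h
  by_cases hg : g.val = 0 <;> by_cases hg' : g'.val = 0
  · have : g = g' := Fin.ext (by omega)
    subst this
    simp only [hg, if_true] at h
    cases b <;> cases b' <;> simp_all
  · exfalso
    simp only [hg, hg', if_true, if_false] at h
    cases b <;> cases b' <;> simp only [Bool.false_eq_true, if_true, if_false, reduceCtorEq,
      Option.some.injEq] at h
    · exact For_cast_ne k hg' (by linear_combination -h)
    · exact For_cast_ne k hg' (by linear_combination h)
  · exfalso
    simp only [hg, hg', if_true, if_false] at h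
    cases b <;> cases b' <;> simp only [Bool.false_eq_true, if_true, if_false, reduceCtorEq,
      Option.some.injEq] at h
    · exact For_cast_ne k hg (by linear_combination h)
    · exact For_cast_ne k hg (by linear_combination -h)
  · simp only [hg, hg', if_false] at h
    cases b <;> cases b' <;> simp only [Bool.false_eq_true, if_true, if_false,
      Option.some.injEq] at h
    · rw [For_cast_inj k (g := g) (g' := g') (by linear_combination h)]
    · exact (For_cast_add k (g := g) (g' := g') hg (by linear_combination h)).elim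
    · exact (For_cast_add k (g := g) (g' := g') hg (by linear_combination -h)).elim
    · rw [For_cast_inj k (g := g) (g' := g') (by linear_combination -h)]

/-- The standard one-factorization. -/
noncomputable def ofEquiv (r : ZMod (2 * k + 1)) :
    Fin (k + 1) × Bool ≃ Option (ZMod (2 * k + 1)) :=
  Equiv.ofBijective (ofFun k r) ((Fintype.bijective_iff_injective_and_card _).2
    ⟨ofFun_inj k r, by simp [ZMod.card]; ring⟩)

theorem ofEquiv_apply (r : ZMod (2 * k + 1)) (q : Fin (k + 1) × Bool) :
    ofEquiv k r q = ofFun k r q := rfl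

theorem ofEquiv_oneFact : OneFact (ofEquiv k) := by
  rintro (_ | y) (_ | z) hne
  · exact absurd rfl hne
  · refine ⟨(z, (0, false)), ⟨by simp [ofEquiv_apply, ofFun], by simp [ofEquiv_apply, ofFun]⟩, ?_⟩
    rintro ⟨r, g, b⟩ ⟨h1, h2⟩
    simp only [ofEquiv_apply, ofFun] at h1 h2
    by_cases hg : g.val = 0
    · have : g = 0 := Fin.ext hg
      subst this
      cases b
      · simp at h2
        rw [h2]
      · simp at h1
    · simp only [hg, if_false] at h1
      cases b <;> simp at h1
  · refine ⟨(y, (0, true)), ⟨by simp [ofEquiv_apply, ofFun], by simp [ofEquiv_apply, ofFun]⟩, ?_⟩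
    rintro ⟨r, g, b⟩ ⟨h1, h2⟩
    simp only [ofEquiv_apply, ofFun] at h1 h2
    by_cases hg : g.val = 0
    · have : g = 0 := Fin.ext hg
      subst this
      cases b
      · simp at h1
      · simp at h1
        rw [h1]
    · simp only [hg, if_false] at h2
      cases b <;> simp at h2
  · have hyz : y ≠ z := fun h => hne (by rw [h])
    set r : ZMod (2 * k + 1) := (y + z) * (k + 1) with hr
    set d : ZMod (2 * k + 1) := (y - z) * (k + 1) with hd
    have hr2 : 2 * r = y + z := (Zig_eq_half k _ _).2 hr
    have hd2 : 2 * d = y - z := (Zig_eq_half k _ _).2 hd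
    have hy : r + d = y := by
      have h := Zig_half k
      rw [hr, hd]; linear_combination y * h
    have hz : r - d = z := by
      have h := Zig_half k
      rw [hr, hd]; linear_combination z * h
    have hd0 : d ≠ 0 := by
      intro h
      apply hyz
      rw [← hy, ← hz, h]; ring
    have hdv : d.val ≠ 0 := by
      intro h
      exact hd0 (by rw [← ZMod.natCast_zmod_val d, h]; simp)
    have hneg := Zig_neg k hd0
    have hlt := ZMod.val_lt d
    -- all solutions
    have hsol : ∀ (r' : ZMod (2 * k + 1)) (g : Fin (k + 1)) (b : Bool),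
        ofEquiv k r' (g, b) = some y → ofEquiv k r' (g, !b) = some z →
        g.val ≠ 0 ∧ r' = r ∧ (b = false → (g.val : ZMod (2 * k + 1)) = d) ∧
          (b = true → (g.val : ZMod (2 * k + 1)) = -d) := by
      intro r' g b h1 h2
      simp only [ofEquiv_apply, ofFun] at h1 h2
      by_cases hg : g.val = 0
      · exfalso
        simp only [hg, if_true] at h1 h2
        cases b <;> simp at h1 h2
      · simp only [hg, if_false] at h1 h2
        cases b
        · simp only [Bool.false_eq_true, if_false, Option.some.injEq, Bool.not_false,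
            if_true] at h1 h2
          refine ⟨hg, ?_, fun _ => ?_, fun h => by simp at h⟩
          · rw [hr, ← Zig_eq_half]; linear_combination h1 + h2
          · rw [hd, ← Zig_eq_half]; linear_combination h1 - h2
        · simp only [Bool.false_eq_true, if_false, Option.some.injEq, Bool.not_true,
            if_true] at h1 h2
          refine ⟨hg, ?_, fun h => by simp at h, fun _ => ?_⟩
          · rw [hr, ← Zig_eq_half]; linear_combination h1 + h2
          · have : -(g.val : ZMod (2 * k + 1)) = d := by
              rw [hd, ← Zig_eq_half]; linear_combination h1 - h2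
            rw [← this, neg_neg]
    by_cases hdk : d.val ≤ k
    · have hcast : ((⟨d.val, by omega⟩ : Fin (k + 1)).val : ZMod (2 * k + 1)) = d := by
        simp
      refine ⟨(r, (⟨d.val, by omega⟩, false)), ⟨?_, ?_⟩, ?_⟩
      · simp only [ofEquiv_apply, ofFun, hdv, if_false, Bool.false_eq_true]
        rw [ZMod.natCast_zmod_val, hy]
      · simp only [ofEquiv_apply, ofFun, hdv, if_false, Bool.not_false, if_true]
        rw [ZMod.natCast_zmod_val, hz]
      · rintro ⟨r', g, b⟩ ⟨h1, h2⟩
        obtain ⟨hg, h3, h4, h5⟩ := hsol r' g b h1 h2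
        cases b
        · have h6 := h4 rfl
          rw [h3]
          have : g = ⟨d.val, by omega⟩ := For_cast_inj k (by rw [h6, hcast])
          rw [this]
        · exfalso
          have h6 := h5 rfl
          have h7 := congrArg ZMod.val h6
          rw [For_val, hneg] at h7
          have := g.2
          omega
    · have hcast : ((⟨(-d).val, by omega⟩ : Fin (k + 1)).val : ZMod (2 * k + 1)) = -d := by
        simp
      refine ⟨(r, (⟨(-d).val, by omega⟩, true)), ⟨?_, ?_⟩, ?_⟩
      · have h0 : (-d).val ≠ 0 := by omega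
        simp only [ofEquiv_apply, ofFun, h0, if_false, if_true]
        rw [ZMod.natCast_zmod_val, sub_neg_eq_add, hy]
      · have h0 : (-d).val ≠ 0 := by omega
        simp only [ofEquiv_apply, ofFun, h0, if_false, Bool.not_true, Bool.false_eq_true]
        rw [ZMod.natCast_zmod_val, ← sub_eq_add_neg, hz]
      · rintro ⟨r', g, b⟩ ⟨h1, h2⟩
        obtain ⟨hg, h3, h4, h5⟩ := hsol r' g b h1 h2
        cases b
        · exfalso
          have h6 := h4 rfl
          have h7 := congrArg ZMod.val h6
          rw [For_val] at h7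
          have := g.2
          omega
        · have h6 := h5 rfl
          rw [h3]
          have : g = ⟨(-d).val, by omega⟩ := For_cast_inj k (by rw [h6, hcast])
          rw [this]

end onefact

end Pool.Agent.H.Tc26
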