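import Pool.Agent.H.Tc26.Double

/-! Bipartite and complete decompositions (helper26, MP_0d0865_co). -/

set_option autoImplicit false

namespace Pool.Agent.H.Tc26

open Finset Equiv

/-- Decomposition of the complete bipartite digraph on `H × Bool`. -/
def BdOn (H J : Type) (M : Multiset ℕ) : Prop :=
  ∃ r : J → Perm (H × Bool), (∀ j, IsType (r j) M) ∧ (∀ j x, (r j x).2 = !x.2) ∧
    ∀ x y : H × Bool, x.2 ≠ y.2 → ∃! j, r j x = y

/-- Labelled decomposition of the complete graph on `V` with all edges doubled. -/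
def KdOn (V J : Type) (M : Multiset ℕ) : Prop :=
  ∃ (r : J → Perm V) (l : J → V → Bool), (∀ j, IsType (r j) M) ∧
    ∀ a b : V, a ≠ b → ∀ c : Bool, ∃! q : J × Bool,
      (q.2 = true ∧ r q.1 a = b ∧ l q.1 b = c) ∨ (q.2 = false ∧ r q.1 b = a ∧ l q.1 b = !c)

theorem KdOn.toL2 {V J : Type} [Fintype J] {M : Multiset ℕ} (h : KdOn V J M) : L2 V M := by
  obtain ⟨r, l, h1, h2⟩ := h
  exact ⟨J, inferInstance, r, l, h1, h2⟩

theorem BdOn.congr {H J H' J' : Type} {M : Multiset ℕ} (h : BdOn H J M) (eH : H ≃ H')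
    (eJ : J ≃ J') : BdOn H' J' M := by
  obtain ⟨r, h1, h2, h3⟩ := h
  let E : H × Bool ≃ H' × Bool := eH.prodCongr (Equiv.refl Bool)
  refine ⟨fun j => E.permCongr (r (eJ.symm j)), fun j => (h1 _).conj _, ?_, ?_⟩
  · intro j x
    have := h2 (eJ.symm j) (E.symm x)
    simpa [E, Equiv.permCongr_apply] using this
  · intro x y hxy
    obtain ⟨j, hj, hu⟩ := h3 (E.symm x) (E.symm y) (by simpa [E] using hxy)
    refine ⟨eJ j, ?_, ?_⟩
    · simp only [Equiv.permCongr_apply, Equiv.symm_apply_apply]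
      rw [hj, Equiv.apply_symm_apply]
    · intro j' hj'
      simp only [Equiv.permCongr_apply] at hj'
      rw [← hu (eJ.symm j') (by rw [← hj', Equiv.symm_apply_apply]), Equiv.apply_symm_apply]

theorem KdOn.congr {V J V' J' : Type} {M : Multiset ℕ} (h : KdOn V J M) (eV : V ≃ V')
    (eJ : J ≃ J') : KdOn V' J' M := by
  obtain ⟨r, l, h1, h2⟩ := h
  refine ⟨fun j => eV.permCongr (r (eJ.symm j)), fun j x => l (eJ.symm j) (eV.symm x),
    fun j => (h1 _).conj _, ?_⟩
  intro a b hab c
  obtain ⟨⟨j, d⟩, hj, hu⟩ := h2 (eV.symm a) (eV.symm b) (fun h => hab (eV.symm.injective h)) c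
  have key : ∀ (p : Perm V) (x y : V'), eV.permCongr p x = y ↔
      p (eV.symm x) = eV.symm y := by
    intro p x y
    rw [Equiv.permCongr_apply, ← Equiv.eq_symm_apply]
  refine ⟨(eJ j, d), ?_, ?_⟩
  · simp only [key, Equiv.symm_apply_apply]
    exact hj
  · rintro ⟨j', d'⟩ hq
    simp only [key] at hq
    have := hu (eJ.symm j', d') hq
    simp only [Prod.mk.injEq] at this
    obtain ⟨h3, rfl⟩ := this
    rw [← h3, Equiv.apply_symm_apply]

/-- Hamilton cycles of the complete bipartite digraph. -/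
def bipPerm {h : ℕ} (g : ZMod h) : Perm (ZMod h × Bool) where
  toFun x := if x.2 then (x.1 - g - 1, false) else (x.1 + g, true)
  invFun x := if x.2 then (x.1 - g, false) else (x.1 + g + 1, true)
  left_inv := by
    rintro ⟨x, b⟩
    cases b
    · simp
    · simp only [if_true, Bool.false_eq_true, if_false, Prod.mk.injEq, and_true]; ring
  right_inv := by
    rintro ⟨x, b⟩
    cases b
    · simp only [if_true, Bool.false_eq_true, if_false, Prod.mk.injEq, and_true]; ring
    · simp

theorem bipPerm_pow {h : ℕ} (g : ZMod h) (k : ℕ) :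
    (bipPerm g ^ (2 * k)) (0, false) = (-(k : ZMod h), false) := by
  induction k with
  | zero => simp
  | succ k ih =>
    rw [show 2 * (k + 1) = 2 * k + 1 + 1 by ring, pow_succ', pow_succ', Perm.mul_apply,
      Perm.mul_apply, ih]
    simp only [bipPerm, Equiv.coe_fn_mk, Bool.false_eq_true, if_false, if_true]
    push_cast
    congr 1
    ring

theorem BdOn.leaf {h : ℕ} (hh : 0 < h) : BdOn (ZMod h) (ZMod h) {2 * h} := by
  have : NeZero h := ⟨hh.ne'⟩
  refine ⟨bipPerm, ?_, ?_, ?_⟩
  · intro g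
    have h1 : ({2 * h} : Multiset ℕ) = fam (fun _ : Unit => 2 * h) := by simp [fam]
    rw [h1]
    refine IsType.of_reps _ _ (fun _ => by positivity) (fun _ => (0, false)) ?_ ?_ ?_
    · intro _
      rw [bipPerm_pow]; simp
    · rintro ⟨x, b⟩
      cases b with
      | false =>
        refine ⟨(), 2 * (-x).val, ?_⟩
        rw [bipPerm_pow, ZMod.natCast_zmod_val, neg_neg]
      | true =>
        refine ⟨(), 2 * (-(x - g)).val + 1, ?_⟩
        rw [pow_succ', Perm.mul_apply, bipPerm_pow, ZMod.natCast_zmod_val, neg_neg]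
        simp [bipPerm]
    · simp [ZMod.card, mul_comm]
  · rintro g ⟨x, b⟩
    cases b <;> simp [bipPerm]
  · rintro ⟨x, b⟩ ⟨y, b'⟩ hb
    cases b <;> cases b'
    · exact absurd rfl hb
    · refine ⟨y - x, by simp [bipPerm], ?_⟩
      intro g hg
      simp [bipPerm] at hg
      rw [← hg]; ring
    · refine ⟨x - 1 - y, ?_, ?_⟩
      · simp only [bipPerm, Equiv.coe_fn_mk, if_true, Prod.mk.injEq, and_true]
        ring
      · intro g hg
        simp [bipPerm] at hg
        rw [← hg]; ring
    · exact absurd rfl hb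

/-- Two copies of `H × Bool` in `(H × Bool) × Bool`, parallel or crossed. -/
def crossEquiv (H : Type) (cr : Bool) : (H × Bool) ⊕ (H × Bool) ≃ (H × Bool) × Bool where
  toFun := Sum.elim (fun p => ((p.1, cr && p.2), p.2)) (fun p => ((p.1, !(cr && p.2)), p.2))
  invFun q := if xor q.1.2 (cr && q.2) then Sum.inr (q.1.1, q.2) else Sum.inl (q.1.1, q.2)
  left_inv := by
    rintro (⟨x, b⟩ | ⟨x, b⟩) <;> cases cr <;> cases b <;> rfl
  right_inv := by
    rintro ⟨⟨x, d⟩, b⟩
    cases cr <;> cases b <;> cases d <;> rfl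

theorem BdOn.node {H J : Type} {M1 M2 : Multiset ℕ} (h1 : BdOn H J M1) (h2 : BdOn H J M2) :
    BdOn (H × Bool) (J × Bool) (M1 + M2) := by
  obtain ⟨r1, a1, b1, c1⟩ := h1
  obtain ⟨r2, a2, b2, c2⟩ := h2
  refine ⟨fun j => (crossEquiv H j.2).permCongr (Equiv.sumCongr (r1 j.1) (r2 j.1)),
    fun j => ((a1 _).sum (a2 _)).conj _, ?_, ?_⟩
  · rintro ⟨j, cr⟩ q
    obtain ⟨p, rfl⟩ := (crossEquiv H cr).surjective q
    simp only [Equiv.permCongr_apply, Equiv.symm_apply_apply]
    rcases p with p | p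
    · simpa [crossEquiv] using b1 j p
    · simpa [crossEquiv] using b2 j p
  · rintro ⟨⟨x, d⟩, b⟩ ⟨⟨y, d'⟩, b'⟩ hbb
    simp only at hbb
    have hb' : b' = !b := Tc_bool_ne (Ne.symm hbb)
    subst hb'
    have key : ∀ (j : J) (cr : Bool),
        (crossEquiv H cr).permCongr (Equiv.sumCongr (r1 j) (r2 j)) ((x, d), b) = ((y, d'), !b) ↔
        cr = xor d d' ∧ (if xor d (cr && b) then r2 j (x, b) else r1 j (x, b)) = (y, !b) := by
      intro j cr
      have e1 := b1 j (x, b)
      have e2 := b2 j (x, b)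
      simp only [Equiv.permCongr_apply]
      rw [show (crossEquiv H cr).symm ((x, d), b) = if xor d (cr && b) then Sum.inr (x, b)
        else Sum.inl (x, b) from rfl]
      rcases hx1 : r1 j (x, b) with ⟨z1, u1⟩
      rcases hx2 : r2 j (x, b) with ⟨z2, u2⟩
      rw [hx1] at e1
      rw [hx2] at e2
      simp only at e1 e2
      subst e1 e2
      cases cr <;> cases b <;> cases d <;> cases d' <;>
        simp [crossEquiv, hx1, hx2]
    simp only [ExistsUnique, Prod.exists, Prod.forall, key]
    by_cases hD : xor d (xor d d' && b) = true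
    · obtain ⟨j, hj, hu⟩ := c2 (x, b) (y, !b) (by simp)
      refine ⟨j, xor d d', ⟨rfl, by rw [if_pos hD]; exact hj⟩, ?_⟩
      rintro j' cr ⟨rfl, hj'⟩
      rw [if_pos hD] at hj'
      rw [hu j' hj']
    · obtain ⟨j, hj, hu⟩ := c1 (x, b) (y, !b) (by simp)
      refine ⟨j, xor d d', ⟨rfl, by rw [if_neg hD]; exact hj⟩, ?_⟩
      rintro j' cr ⟨rfl, hj'⟩
      rw [if_neg hD] at hj'
      rw [hu j' hj']

/-- Two copies of `H`. -/
def twoEquiv (H : Type) : H ⊕ H ≃ H × Bool where
  toFun := Sum.elim (fun x => (x, false)) (fun x => (x, true))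
  invFun q := if q.2 then Sum.inr q.1 else Sum.inl q.1
  left_inv := by rintro (x | x) <;> rfl
  right_inv := by rintro ⟨x, b⟩; cases b <;> rfl

theorem KdOn.node {H J J' : Type} {M1 M2 : Multiset ℕ} (h1 : KdOn H J M1) (h2 : KdOn H J M2)
    (hb : BdOn H J' (M1 + M2)) : KdOn (H × Bool) (J ⊕ J') (M1 + M2) := by
  obtain ⟨r1, l1, a1, b1⟩ := h1
  obtain ⟨r2, l2, a2, b2⟩ := h2
  obtain ⟨r3, a3, b3, c3⟩ := hb
  refine ⟨Sum.elim (fun j => (twoEquiv H).permCongr (Equiv.sumCongr (r1 j) (r2 j))) r3,
    Sum.elim (fun j q => if q.2 then l2 j q.1 else l1 j q.1) (fun _ _ => false), ?_, ?_⟩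
  · rintro (j | j)
    · exact ((a1 _).sum (a2 _)).conj _
    · exact a3 j
  · rintro ⟨x, d⟩ ⟨y, d'⟩ hne c
    have key : ∀ (j : J) (x y : H) (d d' : Bool),
        (twoEquiv H).permCongr (Equiv.sumCongr (r1 j) (r2 j)) (x, d) = (y, d') ↔
        d' = d ∧ (if d then r2 j x else r1 j x) = y := by
      intro j x y d d'
      simp only [Equiv.permCongr_apply]
      cases d <;> cases d' <;> simp [twoEquiv]
    by_cases hd : d' = d
    · subst hd
      have hxy : x ≠ y := fun h => hne (by rw [h])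
      have hb3 : ∀ j (z w : H), r3 j (z, d') ≠ (w, d') := by
        intro j z w h
        have := b3 j (z, d')
        rw [h] at this
        cases d' <;> simp at this
      have main : ∃! q : J × Bool,
          (q.2 = true ∧ (if d' then r2 q.1 x else r1 q.1 x) = y ∧
            (if d' then l2 q.1 y else l1 q.1 y) = c) ∨
          (q.2 = false ∧ (if d' then r2 q.1 y else r1 q.1 y) = x ∧
            (if d' then l2 q.1 y else l1 q.1 y) = !c) := by
        cases d'
        · simpa using b1 x y hxy c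
        · simpa using b2 x y hxy c
      obtain ⟨⟨j, e⟩, hj, hu⟩ := main
      refine ⟨(Sum.inl j, e), ?_, ?_⟩
      · simp only [Sum.elim_inl, key, true_and]
        exact hj
      · rintro ⟨j' | j', e'⟩ hq
        · simp only [Sum.elim_inl, key, true_and] at hq
          have := hu (j', e') hq
          simp only [Prod.mk.injEq] at this
          rw [this.1, this.2]
        · exfalso
          simp only [Sum.elim_inr] at hq
          rcases hq with ⟨-, h, -⟩ | ⟨-, h, -⟩ <;> exact hb3 _ _ _ h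
    · have hdd : d' = !d := Tc_bool_ne hd
      subst hdd
      obtain ⟨j1, hj1, hu1⟩ := c3 (x, d) (y, !d) (by simp)
      obtain ⟨j2, hj2, hu2⟩ := c3 (y, !d) (x, d) (by simp)
      have hno : ∀ j (z w : H) (d : Bool),
          (twoEquiv H).permCongr (Equiv.sumCongr (r1 j) (r2 j)) (z, d) ≠ (w, !d) := by
        intro j z w d h
        rw [key] at h
        exact absurd h.1 (by cases d <;> decide)
      cases c
      · refine ⟨(Sum.inr j1, true), Or.inl ⟨rfl, hj1, rfl⟩, ?_⟩
        rintro ⟨j' | j', e'⟩ hq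
        · exfalso
          simp only [Sum.elim_inl] at hq
          rcases hq with ⟨-, h, -⟩ | ⟨-, h, -⟩
          · exact hno _ _ _ _ h
          · have h' := hno j' y x (!d)
            rw [Bool.not_not] at h'
            exact h' h
        · simp only [Sum.elim_inr] at hq
          rcases hq with ⟨h0, h, -⟩ | ⟨-, -, h⟩
          · rw [hu1 j' h, h0]
          · simp at h
      · refine ⟨(Sum.inr j2, false), Or.inr ⟨rfl, hj2, rfl⟩, ?_⟩
        rintro ⟨j' | j', e'⟩ hq
        · exfalso
          simp only [Sum.elim_inl] at hq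
          rcases hq with ⟨-, h, -⟩ | ⟨-, h, -⟩
          · exact hno _ _ _ _ h
          · have h' := hno j' y x (!d)
            rw [Bool.not_not] at h'
            exact h' h
        · simp only [Sum.elim_inr] at hq
          rcases hq with ⟨-, -, h⟩ | ⟨h0, h, -⟩
          · simp at h
          · rw [hu2 j' h, h0]

end Pool.Agent.H.Tc26
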