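import Pool.Agent.H.Tc26.Basic

/-! Lifts of permutations to a double cover (helper26, MP_0d0865_co). -/

set_option autoImplicit false

namespace Pool.Agent.H.Tc26

open Finset Equiv

theorem fam_mul {I : Type} [Fintype I] (l : I → ℕ) (c : ℕ) :
    fam (fun i => c * l i) = (fam l).map (c * ·) := by
  simp [fam, Multiset.map_map]

/-- A permutation with a system of representatives of its orbits. -/
theorem IsType.of_reps {W : Type} [Fintype W] (p : Perm W) {I : Type} [Fintype I] (n : I → ℕ)
    (hn : ∀ i, 0 < n i) (w : I → W) (hper : ∀ i, (p ^ n i) (w i) = w i)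
    (hcov : ∀ x, ∃ i, ∃ k : ℕ, x = (p ^ k) (w i)) (hcard : ∑ i, n i = Fintype.card W) :
    IsType p (fam n) := by
  have : ∀ i, NeZero (n i) := fun i => ⟨(hn i).ne'⟩
  let F : (Σ i, ZMod (n i)) → W := fun q => (p ^ q.2.val) (w q.1)
  have hq : ∀ i q, (p ^ (n i * q)) (w i) = w i := by
    intro i q
    induction q with
    | zero => simp
    | succ q ih => rw [Nat.mul_succ, pow_add, Perm.mul_apply, hper, ih]
  have hk : ∀ i (k : ℕ), F ⟨i, (k : ZMod (n i))⟩ = (p ^ k) (w i) := by
    intro i k
    change (p ^ (k : ZMod (n i)).val) (w i) = _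
    rw [ZMod.val_natCast]
    conv_rhs => rw [← Nat.mod_add_div k (n i), pow_add, Perm.mul_apply, hq]
  have hs : Function.Surjective F := by
    intro x
    obtain ⟨i, k, rfl⟩ := hcov x
    exact ⟨⟨i, (k : ZMod (n i))⟩, hk i k⟩
  have hb : Function.Bijective F := by
    rw [Fintype.bijective_iff_surjective_and_card]
    refine ⟨hs, ?_⟩
    rw [Fintype.card_sigma, ← hcard]
    exact Finset.sum_congr rfl fun i _ => ZMod.card (n i)
  refine ⟨I, inferInstance, n, Equiv.ofBijective F hb, rfl, ?_⟩
  intro i x
  change p (F ⟨i, x⟩) = F ⟨i, x + 1⟩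
  have h1 : x + 1 = ((x.val + 1 : ℕ) : ZMod (n i)) := by
    rw [Nat.cast_add, ZMod.natCast_zmod_val, Nat.cast_one]
  rw [h1, hk, pow_succ', Perm.mul_apply]

theorem Tc_pow_model {V I : Type} {p : Perm V} {l : I → ℕ} (e : (Σ i : I, ZMod (l i)) ≃ V)
    (he : ∀ i x, p (e ⟨i, x⟩) = e ⟨i, x + 1⟩) (i : I) (k : ℕ) :
    (p ^ k) (e ⟨i, 0⟩) = e ⟨i, (k : ZMod (l i))⟩ := by
  induction k with
  | zero => simp
  | succ k ih => rw [pow_succ', Perm.mul_apply, ih, he]; simp

theorem Tc_pos_model {V I : Type} [Finite V] {l : I → ℕ} (e : (Σ i : I, ZMod (l i)) ≃ V) (i : I) :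
    0 < l i := by
  rcases Nat.eq_zero_or_pos (l i) with h | h
  · exfalso
    have : Finite (Σ i : I, ZMod (l i)) := Finite.of_equiv _ e.symm
    have : Finite (ZMod (l i)) := Finite.of_injective
      (fun x : ZMod (l i) => (⟨i, x⟩ : Σ i : I, ZMod (l i)))
      (fun x y hxy => by simpa using hxy)
    rw [h] at this
    exact not_finite (ZMod 0)
  · exact h

theorem Tc_card_model {V I : Type} [Fintype V] [Fintype I] {l : I → ℕ}
    (e : (Σ i : I, ZMod (l i)) ≃ V) : ∑ i, l i = Fintype.card V := by
  have : ∀ i, NeZero (l i) := fun i => ⟨(Tc_pos_model e i).ne'⟩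
  rw [← Fintype.card_congr e, Fintype.card_sigma]
  exact Finset.sum_congr rfl fun i _ => (ZMod.card (l i)).symm

theorem IsType.card_eq {V : Type} [Fintype V] {p : Perm V} {M : Multiset ℕ} (h : IsType p M) :
    M.sum = Fintype.card V := by
  obtain ⟨I, _, l, e, hM, -⟩ := h
  rw [← Tc_card_model e, ← hM]
  rfl

/-- The lift which visits both points of a fibre, the one with label `s` first. -/
def stack {V : Type} (p : Perm V) (s : V → Bool) : Perm (V × Bool) where
  toFun q := if q.2 = s q.1 then (q.1, !q.2) else (p q.1, s (p q.1))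
  invFun q := if q.2 = s q.1 then (p.symm q.1, !s (p.symm q.1)) else (q.1, !q.2)
  left_inv := by
    rintro ⟨a, b⟩
    by_cases h : b = s a
    · subst h; simp
    · have : b = !s a := by cases b <;> cases hs : s a <;> simp_all
      subst this; simp
  right_inv := by
    rintro ⟨a, b⟩
    by_cases h : b = s a
    · subst h; simp
    · have : b = !s a := by cases b <;> cases hs : s a <;> simp_all
      subst this; simp

theorem stack_first {V : Type} (p : Perm V) (s : V → Bool) (a : V) :
    stack p s (a, s a) = (a, !s a) := by simp [stack]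

theorem stack_last {V : Type} (p : Perm V) (s : V → Bool) (a : V) :
    stack p s (a, !s a) = (p a, s (p a)) := by simp [stack]

theorem stack_pow {V : Type} (p : Perm V) (s : V → Bool) (a : V) (k : ℕ) :
    (stack p s ^ (2 * k)) (a, s a) = ((p ^ k) a, s ((p ^ k) a)) := by
  induction k with
  | zero => simp
  | succ k ih =>
    rw [show 2 * (k + 1) = 2 * k + 1 + 1 by ring, pow_succ', pow_succ', Perm.mul_apply,
      Perm.mul_apply, ih, stack_first, stack_last, pow_succ', Perm.mul_apply]

theorem IsType.stack {V : Type} [Fintype V] {p : Perm V} {M : Multiset ℕ} (h : IsType p M)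
    (s : V → Bool) : IsType (stack p s) (M.map (2 * ·)) := by
  obtain ⟨I, _, l, e, hM, he⟩ := h
  rw [← hM, ← fam_mul]
  have hl := Tc_pos_model e
  have : ∀ i, NeZero (l i) := fun i => ⟨(hl i).ne'⟩
  refine IsType.of_reps _ (fun i => 2 * l i) (fun i => by have := hl i; positivity)
    (fun i => (e ⟨i, 0⟩, s (e ⟨i, 0⟩))) ?_ ?_ ?_
  · intro i
    rw [stack_pow, Tc_pow_model e he]
    simp
  · rintro ⟨x, b⟩
    obtain ⟨⟨i, y⟩, rfl⟩ := e.surjective x
    have hy : (p ^ y.val) (e ⟨i, 0⟩) = e ⟨i, y⟩ := by
      rw [Tc_pow_model e he, ZMod.natCast_zmod_val]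
    by_cases hb : b = s (e ⟨i, y⟩)
    · exact ⟨i, 2 * y.val, by rw [stack_pow, hy, hb]⟩
    · refine ⟨i, 2 * y.val + 1, ?_⟩
      rw [pow_succ', Perm.mul_apply, stack_pow, hy, stack_first]
      congr 1
      revert hb
      cases b <;> cases s (e ⟨i, y⟩) <;> simp
  · rw [← Finset.mul_sum, Tc_card_model e]
    simp [mul_comm]

/-- The skew product of a permutation with a voltage function. -/
def skew {V : Type} (p : Perm V) (f : V → Bool) : Perm (V × Bool) where
  toFun q := (p q.1, xor q.2 (f q.1))
  invFun q := (p.symm q.1, xor q.2 (f (p.symm q.1)))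
  left_inv := by rintro ⟨a, b⟩; simp
  right_inv := by rintro ⟨a, b⟩; simp

theorem skew_apply {V : Type} (p : Perm V) (f : V → Bool) (a : V) (b : Bool) :
    skew p f (a, b) = (p a, xor b (f a)) := rfl

/-- Total voltage of the first `k` steps. -/
def volt {V : Type} (p : Perm V) (f : V → Bool) (a : V) : ℕ → Bool
  | 0 => false
  | k + 1 => xor (volt p f a k) (f ((p ^ k) a))

theorem skew_pow {V : Type} (p : Perm V) (f : V → Bool) (a : V) (b : Bool) (k : ℕ) :
    (skew p f ^ k) (a, b) = ((p ^ k) a, xor b (volt p f a k)) := by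
  induction k with
  | zero => simp [volt]
  | succ k ih =>
    rw [pow_succ', Perm.mul_apply, ih, skew_apply, pow_succ', Perm.mul_apply, volt,
      Bool.xor_assoc]

theorem volt_add {V : Type} (p : Perm V) (f : V → Bool) (a : V) {n : ℕ} (hn : (p ^ n) a = a)
    (k : ℕ) : volt p f a (n + k) = xor (volt p f a n) (volt p f a k) := by
  induction k with
  | zero => simp [volt]
  | succ k ih =>
    rw [← Nat.add_assoc, volt, ih, volt, add_comm n k, pow_add, Perm.mul_apply, hn,
      Bool.xor_assoc]

theorem IsType.skew {V : Type} [Fintype V] {p : Perm V} {M Y : Multiset ℕ}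
    (h : IsType p (M + Y.map (2 * ·))) (hM : ∀ m ∈ M, 4 ∣ m) (hY : ∀ y ∈ Y, 2 ∣ y) :
    ∃ L E : V → Bool, (∀ x, L (p x) = !L x) ∧
      ∀ c : Bool → Bool, IsType (skew p fun x => xor (c (L x)) (E x))
        ((M + Y + Y).map (2 * ·)) := by
  classical
  obtain ⟨k1, l1, hl1⟩ := Tc_exists_fam M
  obtain ⟨k2, l2, hl2⟩ := Tc_exists_fam Y
  obtain ⟨l, hl⟩ : ∃ l : Fin k1 ⊕ Fin k2 → ℕ, l = Sum.elim l1 (fun i => 2 * l2 i) := ⟨_, rfl⟩
  obtain ⟨e, he⟩ := h.exists_equiv l (by rw [hl, fam_sum, fam_mul, hl1, hl2])
  have hlL : ∀ i, l (Sum.inl i) = l1 i := fun i => by rw [hl]; rfl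
  have hlR : ∀ i, l (Sum.inr i) = 2 * l2 i := fun i => by rw [hl]; rfl
  have h4 : ∀ i, 4 ∣ l i := by
    rintro (i | i)
    · rw [hlL]
      exact hM _ (by rw [← hl1]; exact Multiset.mem_map_of_mem _ (Finset.mem_univ i))
    · obtain ⟨t, ht⟩ := hY (l2 i) (by
        rw [← hl2]; exact Multiset.mem_map_of_mem _ (Finset.mem_univ i))
      rw [hlR]
      exact ⟨t, by omega⟩
  have hpos := Tc_pos_model e
  have : ∀ i, NeZero (l i) := fun i => ⟨(hpos i).ne'⟩
  let L0 : (Σ i, ZMod (l i)) → Bool := fun q => decide (q.2.val % 2 = 1)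
  let E0 : (Σ i, ZMod (l i)) → Bool := fun q => q.1.isLeft && decide (q.2 = 0)
  let L : V → Bool := fun x => L0 (e.symm x)
  let E : V → Bool := fun x => E0 (e.symm x)
  have hLe : ∀ q, L (e q) = L0 q := fun q => congrArg L0 (e.symm_apply_apply q)
  have hEe : ∀ q, E (e q) = E0 q := fun q => congrArg E0 (e.symm_apply_apply q)
  refine ⟨L, E, ?_, ?_⟩
  · intro x
    obtain ⟨⟨i, y⟩, rfl⟩ := e.surjective x
    rw [he, hLe, hLe]
    simp only [L0]
    have h2 : (y + 1).val % 2 = (y.val + 1) % 2 := by
      have : (y + 1).val = (y.val + 1) % l i := by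
        have h1 : y + 1 = ((y.val + 1 : ℕ) : ZMod (l i)) := by
          rw [Nat.cast_add, ZMod.natCast_zmod_val, Nat.cast_one]
        rw [h1, ZMod.val_natCast]
      rw [this, Nat.mod_mod_of_dvd]
      exact Dvd.dvd.trans (by norm_num) (h4 i)
    rw [h2]
    by_cases h3 : y.val % 2 = 1
    · rw [decide_eq_false (by omega), decide_eq_true h3]; rfl
    · rw [decide_eq_true (by omega), decide_eq_false h3]; rfl
  · intro c
    set f : V → Bool := fun x => xor (c (L x)) (E x) with hf
    have hfe : ∀ i (k : ℕ), k < l i → f (e ⟨i, (k : ZMod (l i))⟩) =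
        xor (c (decide (k % 2 = 1))) (i.isLeft && decide (k = 0)) := by
      intro i k hk
      have hv : (k : ZMod (l i)).val = k := by
        rw [ZMod.val_natCast, Nat.mod_eq_of_lt hk]
      have hz : ((k : ZMod (l i)) = 0) ↔ k = 0 := by
        constructor
        · intro h0
          have := congrArg ZMod.val h0
          rwa [hv, ZMod.val_zero] at this
        · rintro rfl; simp
      simp only [hf, hLe, hEe, L0, E0, hv, hz]
    have hvolt : ∀ i (t : ℕ), 4 * t ≤ l i →
        volt p f (e ⟨i, 0⟩) (4 * t) = (i.isLeft && decide (0 < t)) := by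
      intro i t
      induction t with
      | zero => simp [volt]
      | succ t ih =>
        intro ht
        rw [show 4 * (t + 1) = 4 * t + 1 + 1 + 1 + 1 by ring, volt, volt, volt, volt,
          ih (by omega)]
        simp only [Tc_pow_model e he]
        rw [hfe i (4 * t) (by omega), hfe i (4 * t + 1) (by omega),
          hfe i (4 * t + 1 + 1) (by omega), hfe i (4 * t + 1 + 1 + 1) (by omega)]
        have e1 : decide ((4 * t) % 2 = 1) = false := decide_eq_false (by omega)
        have e2 : decide ((4 * t + 1) % 2 = 1) = true := decide_eq_true (by omega)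
        have e3 : decide ((4 * t + 1 + 1) % 2 = 1) = false := decide_eq_false (by omega)
        have e4 : decide ((4 * t + 1 + 1 + 1) % 2 = 1) = true := decide_eq_true (by omega)
        have e5 : decide (4 * t + 1 = 0) = false := decide_eq_false (by omega)
        have e6 : decide (4 * t + 1 + 1 = 0) = false := decide_eq_false (by omega)
        have e7 : decide (4 * t + 1 + 1 + 1 = 0) = false := decide_eq_false (by omega)
        have e8 : decide (0 < t + 1) = true := decide_eq_true (by omega)
        rw [e1, e2, e3, e4, e5, e6, e7, e8]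
        rcases Nat.eq_zero_or_pos t with h0 | h0
        · subst h0
          simp
          generalize c false = u; generalize c true = v; generalize i.isLeft = w
          revert u v w; decide
        · have e9 : decide (4 * t = 0) = false := decide_eq_false (by omega)
          have e10 : decide (0 < t) = true := decide_eq_true h0
          rw [e9, e10]
          generalize c false = u; generalize c true = v; generalize i.isLeft = w
          revert u v w; decide
    have hvl : ∀ i, volt p f (e ⟨i, 0⟩) (l i) = i.isLeft := by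
      intro i
      obtain ⟨t, ht⟩ := h4 i
      have h0 := hpos i
      have := hvolt i t (by omega)
      rw [← ht] at this
      rw [this, decide_eq_true (by omega), Bool.and_true]
    have hpl : ∀ i, (p ^ l i) (e ⟨i, 0⟩) = e ⟨i, 0⟩ := by
      intro i
      rw [Tc_pow_model e he]; simp
    have hfam : (M + Y + Y).map (2 * ·) =
        fam (Sum.elim (fun i => 2 * l (Sum.inl i)) (Sum.elim (fun i => l (Sum.inr i))
          (fun i => l (Sum.inr i)))) := by
      rw [fam_sum, fam_sum]
      simp only [hlL, hlR]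
      rw [fam_mul, fam_mul, hl1, hl2, Multiset.map_add, Multiset.map_add, add_assoc]
    rw [hfam]
    refine IsType.of_reps _ _ ?_ (Sum.elim (fun i => (e ⟨Sum.inl i, 0⟩, false))
      (Sum.elim (fun i => (e ⟨Sum.inr i, 0⟩, false)) (fun i => (e ⟨Sum.inr i, 0⟩, true)))) ?_ ?_ ?_
    · rintro (i | i | i)
      · have := hpos (Sum.inl i); simp only [Sum.elim_inl]; omega
      · exact hpos (Sum.inr i)
      · exact hpos (Sum.inr i)
    · rintro (i | i | i)
      · simp only [Sum.elim_inl]
        have h1 := hpl (Sum.inl i)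
        have h2 : volt p f (e ⟨Sum.inl i, 0⟩) (l (Sum.inl i)) = true := hvl (Sum.inl i)
        rw [skew_pow, two_mul, volt_add p f _ h1, h2, pow_add, Perm.mul_apply, h1, h1]
        simp
      · simp only [Sum.elim_inr, Sum.elim_inl]
        have h1 := hpl (Sum.inr i)
        have h2 : volt p f (e ⟨Sum.inr i, 0⟩) (l (Sum.inr i)) = false := hvl (Sum.inr i)
        rw [skew_pow, h1, h2]; simp
      · simp only [Sum.elim_inr]
        have h1 := hpl (Sum.inr i)
        have h2 : volt p f (e ⟨Sum.inr i, 0⟩) (l (Sum.inr i)) = false := hvl (Sum.inr i)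
        rw [skew_pow, h1, h2]; simp
    · rintro ⟨x, b⟩
      obtain ⟨⟨i, y⟩, rfl⟩ := e.surjective x
      have hy : (p ^ y.val) (e ⟨i, 0⟩) = e ⟨i, y⟩ := by
        rw [Tc_pow_model e he, ZMod.natCast_zmod_val]
      rcases i with i | i
      · by_cases hb : b = volt p f (e ⟨Sum.inl i, 0⟩) y.val
        · refine ⟨Sum.inl i, y.val, ?_⟩
          simp only [Sum.elim_inl]
          rw [skew_pow, hy, hb]; simp
        · refine ⟨Sum.inl i, l (Sum.inl i) + y.val, ?_⟩
          simp only [Sum.elim_inl]
          rw [skew_pow, volt_add p f _ (hpl (Sum.inl i)), hvl, add_comm, pow_add,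
            Perm.mul_apply, hpl, hy]
          congr 1
          revert hb
          generalize volt p f (e ⟨Sum.inl i, 0⟩) y.val = u
          simp only [Sum.isLeft_inl]
          revert b u; decide
      · by_cases hb : b = volt p f (e ⟨Sum.inr i, 0⟩) y.val
        · refine ⟨Sum.inr (Sum.inl i), y.val, ?_⟩
          simp only [Sum.elim_inl, Sum.elim_inr]
          rw [skew_pow, hy, hb]; simp
        · refine ⟨Sum.inr (Sum.inr i), y.val, ?_⟩
          simp only [Sum.elim_inr]
          rw [skew_pow, hy]
          congr 1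
          revert hb
          generalize volt p f (e ⟨Sum.inr i, 0⟩) y.val = u
          revert b u; decide
    · have h5 := Tc_card_model e
      rw [Fintype.sum_sum_type] at h5
      rw [Fintype.sum_sum_type, Fintype.sum_sum_type]
      simp only [Sum.elim_inl, Sum.elim_inr, Fintype.card_prod, Fintype.card_bool, ← h5]
      rw [← Finset.mul_sum]
      ring

end Pool.Agent.H.Tc26
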