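import Pool.Agent.H.Tc26.Forest

/-! Binary trees of cycle lengths and the recursion (helper26, MP_0d0865_co). -/

set_option autoImplicit false

namespace Pool.Agent.H.Tc26

open Finset Equiv

/-- Binary trees of height at most `a`. -/
def BT : ℕ → Type
  | 0 => Unit
  | a + 1 => Option (BT a × BT a)

/-- The lengths at the leaves: `c * 2 ^ b` for a leaf at level `b`. -/
def mult (c : ℕ) : (a : ℕ) → BT a → Multiset ℕ
  | 0, _ => {c}
  | a + 1, none => {c * 2 ^ (a + 1)}
  | a + 1, some (t, t') => mult c a t + mult c a t'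

theorem BdOn.of_card {H J : Type} [Fintype H] [Fintype J] {M : Multiset ℕ} (h : BdOn H J M)
    {H' J' : Type} [Fintype H'] [Fintype J'] (hH : Fintype.card H = Fintype.card H')
    (hJ : Fintype.card J = Fintype.card J') : BdOn H' J' M :=
  h.congr (Fintype.equivOfCardEq hH) (Fintype.equivOfCardEq hJ)

theorem KdOn.of_card {V J : Type} [Fintype V] [Fintype J] {M : Multiset ℕ} (h : KdOn V J M)
    {V' J' : Type} [Fintype V'] [Fintype J'] (hV : Fintype.card V = Fintype.card V')
    (hJ : Fintype.card J = Fintype.card J') : KdOn V' J' M :=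
  h.congr (Fintype.equivOfCardEq hV) (Fintype.equivOfCardEq hJ)

theorem Bd_leaf {h : ℕ} (hh : 0 < h) : BdOn (Fin h) (Fin h) {2 * h} := by
  have : NeZero h := ⟨hh.ne'⟩
  exact (BdOn.leaf hh).of_card (by simp [ZMod.card]) (by simp [ZMod.card])

theorem Bd_tree {e : ℕ} (he : 0 < e) : ∀ (a : ℕ) (t : BT a),
    BdOn (Fin (e * 2 ^ a)) (Fin (e * 2 ^ a)) (mult (2 * e) a t)
  | 0, _ => by
    have := Bd_leaf he
    simpa [mult] using this
  | a + 1, none => by
    have := Bd_leaf (h := e * 2 ^ (a + 1)) (by positivity)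
    rw [← mul_assoc] at this
    exact this
  | a + 1, some (t, t') => by
    have := (Bd_tree he a t).node (Bd_tree he a t')
    refine this.of_card ?_ ?_ <;>
    · simp only [Fintype.card_prod, Fintype.card_fin, Fintype.card_bool]; ring

theorem Kd_leaf {h : ℕ} (hh : 0 < h) : KdOn (Fin (2 * h)) (Fin (2 * h - 1)) {2 * h} := by
  obtain ⟨k, rfl⟩ : ∃ k, h = k + 1 := ⟨h - 1, by omega⟩
  have := KdOn.leaf k
  rw [show 2 * k + 2 = 2 * (k + 1) by ring] at this
  refine this.of_card ?_ ?_
  · simp [ZMod.card]; ring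
  · simp [ZMod.card]; omega

theorem Kd_tree {e : ℕ} (he : 0 < e) : ∀ (a : ℕ) (t : BT a),
    KdOn (Fin (2 * e * 2 ^ a)) (Fin (2 * e * 2 ^ a - 1)) (mult (2 * e) a t)
  | 0, _ => by
    have := Kd_leaf he
    simpa [mult] using this
  | a + 1, none => by
    have := Kd_leaf (h := e * 2 ^ (a + 1)) (by positivity)
    rw [← mul_assoc] at this
    exact this
  | a + 1, some (t, t') => by
    have hb : BdOn (Fin (2 * e * 2 ^ a)) (Fin (2 * e * 2 ^ a))
        (mult (2 * e) a t + mult (2 * e) a t') :=
      (Bd_tree he (a + 1) (some (t, t'))).of_card (by simp; ring) (by simp; ring)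
    have := (Kd_tree he a t).node (Kd_tree he a t') hb
    have hp : 0 < 2 * e * 2 ^ a := by positivity
    refine this.of_card ?_ ?_
    · simp only [Fintype.card_prod, Fintype.card_fin, Fintype.card_bool]; ring
    · simp only [Fintype.card_sum, Fintype.card_fin]
      rw [pow_succ, ← mul_assoc]
      omega

theorem L2.congr {V V' : Type} {M : Multiset ℕ} (h : L2 V M) (e : V ≃ V') : L2 V' M := by
  obtain ⟨J, _, r, l, h1, h2⟩ := h
  exact KdOn.toL2 (KdOn.congr (J := J) ⟨r, l, h1, h2⟩ e (Equiv.refl J))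

theorem L2_forest {e : ℕ} (he : 0 < e) (k a : ℕ) (f : Fin (k + 1) → BT a) {V : Type} [Fintype V]
    (hV : Fintype.card V = (k + 1) * (2 * e * 2 ^ a)) :
    L2 V (∑ g, mult (2 * e) a (f g)) := by
  have hK : ∀ g, KdOn (Fin (e * 2 ^ a) × Bool) (Fin (2 * e * 2 ^ a - 1))
      (mult (2 * e) a (f g)) := fun g => (Kd_tree he a (f g)).of_card (by simp; ring) rfl
  have h := (KdOn.forest (ofEquiv_oneFact k) 0 (fun g => mult (2 * e) a (f g)) hK
    fun g => Bd_tree he a (f g)).toL2
  refine h.congr (Fintype.equivOfCardEq ?_)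
  rw [hV]
  simp [ZMod.card]
  ring

theorem mult_two (d : ℕ) : ∀ (a : ℕ) (t : BT a), mult (2 * d) a t = (mult d a t).map (2 * ·)
  | 0, _ => by simp [mult]
  | a + 1, none => by simp [mult, mul_assoc]
  | a + 1, some (t, t') => by
    simp only [mult, mult_two d a t, mult_two d a t', Multiset.map_add]

/-- The tree with only one leaf. -/
def oneLeaf : (a : ℕ) → BT a
  | 0 => ()
  | _ + 1 => none

theorem mult_oneLeaf (c : ℕ) : ∀ a, mult c a (oneLeaf a) = {c * 2 ^ a}
  | 0 => by simp [mult]
  | a + 1 => by simp [mult, oneLeaf]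

theorem contract (e : ℕ) : ∀ (a : ℕ) (t : BT (a + 1)), ∃ (t' : BT a) (M Y : Multiset ℕ),
    (∀ m ∈ M, 4 ∣ m) ∧ (∀ y ∈ Y, 2 ∣ y) ∧ mult (2 * e) (a + 1) t = M + Y + Y ∧
      mult (2 * (2 * e)) a t' = M + Y.map (2 * ·)
  | a, none => by
    refine ⟨oneLeaf a, {2 * e * 2 ^ (a + 1)}, 0, ?_, by simp, by simp [mult], ?_⟩
    · intro m hm
      rw [Multiset.mem_singleton] at hm
      exact ⟨e * 2 ^ a, by rw [hm]; ring⟩
    · rw [mult_oneLeaf]
      simp only [Multiset.map_zero, add_zero, Multiset.singleton_inj]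
      ring
  | 0, some (t1, t2) => by
    refine ⟨(), 0, {2 * e}, by simp, ?_, by simp [mult], by simp [mult]⟩
    intro y hy
    rw [Multiset.mem_singleton] at hy
    exact ⟨e, hy⟩
  | a + 1, some (t1, t2) => by
    obtain ⟨t1', M1, Y1, h1, h2, h3, h4⟩ := contract e a t1
    obtain ⟨t2', M2, Y2, k1, k2, k3, k4⟩ := contract e a t2
    refine ⟨some (t1', t2'), M1 + M2, Y1 + Y2, ?_, ?_, ?_, ?_⟩
    · intro m hm
      rcases Multiset.mem_add.1 hm with h | h
      · exact h1 m h
      · exact k1 m h
    · intro m hm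
      rcases Multiset.mem_add.1 hm with h | h
      · exact h2 m h
      · exact k2 m h
    · rw [mult, h3, k3]; abel
    · rw [mult, h4, k4, Multiset.map_add]; abel

theorem P3.congr {V V' : Type} [DecidableEq V] [DecidableEq V'] {M : Multiset ℕ} (h : P3 V M)
    (e : V ≃ V') : P3 V' M := by
  obtain ⟨J, _, r, h1, h2⟩ := h
  refine ⟨J, inferInstance, fun j => e.permCongr (r j), fun j => (h1 j).conj e, ?_⟩
  intro s hs
  obtain ⟨⟨j, x⟩, hx, hu⟩ := h2 (s.map e.symm.toEmbedding) (by rw [Finset.card_map, hs])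
  have key : ∀ (j : J) (y : V'), s = {y, e.permCongr (r j) y,
      e.permCongr (r j) (e.permCongr (r j) y)} ↔
      s.map e.symm.toEmbedding = {e.symm y, r j (e.symm y), r j (r j (e.symm y))} := by
    intro j y
    simp only [Equiv.permCongr_apply, Equiv.symm_apply_apply]
    constructor
    · intro h
      rw [h]
      ext z
      simp [Finset.map_insert]
    · intro h
      apply Finset.map_injective e.symm.toEmbedding
      rw [h]
      ext z
      simp [Finset.map_insert]
  refine ⟨(j, e x), ?_, ?_⟩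
  · simp only [key, Equiv.symm_apply_apply]
    exact hx
  · rintro ⟨j', y⟩ hy
    simp only [key] at hy
    have := hu (j', e.symm y) hy
    simp only [Prod.mk.injEq] at this
    rw [this.1, ← this.2, Equiv.apply_symm_apply]

theorem Tc_map_sum {G : Type} (s : Finset G) (F : G → Multiset ℕ) (f : ℕ → ℕ) :
    (∑ g ∈ s, F g).map f = ∑ g ∈ s, (F g).map f :=
  map_sum (Multiset.mapAddMonoidHom f) F s

theorem P3_forest {e : ℕ} (he : 0 < e) (k : ℕ)
    (base : P3 (Fin ((k + 1) * (2 * (2 * e)))) (∑ _g : Fin (k + 1), {2 * (2 * e)})) :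
    ∀ (a : ℕ) (f : Fin (k + 1) → BT a),
      P3 (Fin ((k + 1) * (2 * (2 * e) * 2 ^ a))) (∑ g, mult (2 * (2 * e)) a (f g)) := by
  intro a
  induction a with
  | zero =>
    intro f
    have h1 : (k + 1) * (2 * (2 * e)) = (k + 1) * (2 * (2 * e) * 2 ^ 0) := by ring
    exact base.congr (finCongr h1)
  | succ a ih =>
    intro f
    choose t' M Y h1 h2 h3 h4 using fun g => contract e a (f g)
    have hU : ∑ g, mult (2 * e) (a + 1) (f g) = (∑ g, M g) + (∑ g, Y g) + ∑ g, Y g := by
      rw [← Finset.sum_add_distrib, ← Finset.sum_add_distrib]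
      exact Finset.sum_congr rfl fun g _ => h3 g
    have hF : ∑ g, mult (2 * (2 * e)) a (t' g) = (∑ g, M g) + (∑ g, Y g).map (2 * ·) := by
      rw [Tc_map_sum, ← Finset.sum_add_distrib]
      exact Finset.sum_congr rfl fun g _ => h4 g
    have hT : ∑ g, mult (2 * (2 * e)) (a + 1) (f g) =
        ((∑ g, M g) + (∑ g, Y g) + ∑ g, Y g).map (2 * ·) := by
      rw [← hU, Tc_map_sum]
      exact Finset.sum_congr rfl fun g _ => mult_two _ _ _
    have h3' := ih t'
    rw [hF] at h3'
    have h2' := L2_forest he k (a + 1) f (V := Fin ((k + 1) * (2 * (2 * e) * 2 ^ a)))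
      (by rw [Fintype.card_fin]; ring)
    rw [hU] at h2'
    rw [hT]
    refine (P3.double ?_ ?_ h3' h2').congr (Fintype.equivOfCardEq ?_)
    · intro m hm
      obtain ⟨g, -, hg⟩ := Multiset.mem_sum.1 hm
      exact h1 g m hg
    · intro m hm
      obtain ⟨g, -, hg⟩ := Multiset.mem_sum.1 hm
      exact h2 g m hg
    · simp only [Fintype.card_prod, Fintype.card_fin, Fintype.card_bool]
      ring

/-- Every multiset of lengths `c * 2 ^ b` with `b ≤ a` and the right sum comes from a forest. -/
theorem packing {c : ℕ} (hc : 0 < c) : ∀ (a : ℕ) (G : Type) [Fintype G] (T : Multiset ℕ),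
    (∀ x ∈ T, ∃ b ≤ a, x = c * 2 ^ b) → T.sum = Fintype.card G * (c * 2 ^ a) →
    ∃ f : G → BT a, ∑ g, mult c a (f g) = T := by
  intro a
  induction a with
  | zero =>
    intro G _ T hT hs
    have h1 : T = Multiset.replicate (Multiset.card T) c := by
      refine Multiset.eq_replicate.2 ⟨rfl, ?_⟩
      intro x hx
      obtain ⟨b, hb, rfl⟩ := hT x hx
      rw [Nat.le_zero.1 hb]; simp
    have h2 : Multiset.card T = Fintype.card G := by
      rw [h1, Multiset.sum_replicate, smul_eq_mul] at hs
      simp only [Multiset.card_replicate, pow_zero, mul_one] at hs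
      exact Nat.eq_of_mul_eq_mul_right hc hs
    refine ⟨fun _ => (), ?_⟩
    rw [h1, h2]
    simp only [mult, Finset.sum_const, Finset.card_univ]
    rw [Multiset.nsmul_singleton]
  | succ a ih =>
    intro G _ T hT hs
    set q : ℕ := c * 2 ^ (a + 1) with hq
    have hq0 : 0 < q := by positivity
    set T1 := T.filter (· = q) with hT1
    set T2 := T.filter (fun x => ¬ x = q) with hT2
    have hsplit : T1 + T2 = T := Multiset.filter_add_not _ T
    have h1 : T1 = Multiset.replicate (Multiset.card T1) q := by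
      refine Multiset.eq_replicate.2 ⟨rfl, ?_⟩
      intro x hx
      exact (Multiset.mem_filter.1 hx).2
    set n := Multiset.card T1 with hn
    have hsum : T2.sum + n * q = Fintype.card G * q := by
      rw [← hs, ← hsplit, Multiset.sum_add, h1, Multiset.sum_replicate, smul_eq_mul, add_comm]
    have hnG : n ≤ Fintype.card G := by
      by_contra h
      push Not at h
      have : Fintype.card G * q < n * q := Nat.mul_lt_mul_of_pos_right h hq0
      omega
    obtain ⟨k, hk⟩ : ∃ k, Fintype.card G = n + k := ⟨Fintype.card G - n, by omega⟩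
    have hs2 : T2.sum = k * q := by
      rw [hk, add_mul] at hsum
      omega
    obtain ⟨f', hf'⟩ := ih (Fin k × Bool) T2 (by
      intro x hx
      obtain ⟨hx1, hx2⟩ := Multiset.mem_filter.1 hx
      obtain ⟨b, hb, rfl⟩ := hT x hx1
      refine ⟨b, ?_, rfl⟩
      rcases Nat.lt_or_ge b (a + 1) with h | h
      · omega
      · exfalso
        apply hx2
        rw [le_antisymm hb h]) (by
      rw [hs2, hq]
      simp only [Fintype.card_prod, Fintype.card_fin, Fintype.card_bool]
      ring)
    let E : G ≃ Fin n ⊕ Fin k := Fintype.equivOfCardEq (by simp [hk])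
    refine ⟨fun g => (Sum.elim (fun _ => none) (fun i => some (f' (i, true), f' (i, false)))
      (E g) : Option (BT a × BT a)), ?_⟩
    rw [Equiv.sum_comp E (fun x => mult c (a + 1) (Sum.elim (fun _ => none)
      (fun i => some (f' (i, true), f' (i, false))) x : Option (BT a × BT a))),
      Fintype.sum_sum_type]
    simp only [Sum.elim_inl, Sum.elim_inr]
    rw [← hsplit, ← hf', Fintype.sum_prod_type]
    congr 1
    · rw [h1]
      change ∑ _x : Fin n, ({c * 2 ^ (a + 1)} : Multiset ℕ) = _
      rw [Finset.sum_const, Finset.card_univ, Fintype.card_fin, Multiset.nsmul_singleton]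
    · refine Finset.sum_congr rfl fun i _ => ?_
      rw [Fintype.sum_bool]
      rfl

end Pool.Agent.H.Tc26
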