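import Pool.Agent.H.Tc26.Graph

/-! The zigzag decomposition (helper26, MP_0d0865_co). -/

set_option autoImplicit false

namespace Pool.Agent.H.Tc26

open Finset Equiv

section zig

variable (k : ℕ)

instance : NeZero (2 * k + 1) := ⟨by omega⟩

theorem Zig_neg {x : ZMod (2 * k + 1)} (hx : x ≠ 0) : (-x).val = 2 * k + 1 - x.val := by
  have : NeZero x := ⟨hx⟩
  exact ZMod.val_neg_of_ne_zero x

theorem Zig_pos {x : ZMod (2 * k + 1)} (hx : 0 < x.val) : x ≠ 0 := by
  rintro rfl
  simp at hx

theorem Zig_neg_one (x : ZMod (2 * k + 1)) : (-x - 1).val = 2 * k - x.val := by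
  have h1 : -x - 1 = ((2 * k - x.val : ℕ) : ZMod (2 * k + 1)) := by
    have hx := ZMod.val_lt x
    have h2 : ((2 * k - x.val + x.val + 1 : ℕ) : ZMod (2 * k + 1)) =
        ((2 * k + 1 : ℕ) : ZMod (2 * k + 1)) := congrArg _ (by omega)
    rw [Nat.cast_add, Nat.cast_add, Nat.cast_one, ZMod.natCast_zmod_val,
      ZMod.natCast_self] at h2
    linear_combination -h2
  rw [h1, ZMod.val_natCast, Nat.mod_eq_of_lt]
  have hx := ZMod.val_lt x
  omega

/-- The zigzag `∞, 0, -1, 1, -2, 2, …`. -/
def zig : Perm (Option (ZMod (2 * k + 1))) where
  toFun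
    | none => some 0
    | some x => if x.val < k then some (-x - 1) else if x.val = k then none else some (-x)
  invFun
    | none => some (k : ZMod (2 * k + 1))
    | some y => if y.val = 0 then none else if y.val ≤ k then some (-y) else some (-y - 1)
  left_inv := by
    rintro (_ | x)
    · simp
    · by_cases h1 : x.val < k
      · have h2 := Zig_neg_one k x
        have h3 : ¬ (-x - 1).val = 0 := by omega
        have h4 : ¬ (-x - 1).val ≤ k := by omega
        simp only [h1, h3, h4, if_true, if_false]
        congr 1; ring
      · by_cases h5 : x.val = k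
        · have hxk : (k : ZMod (2 * k + 1)) = x := by
            rw [← ZMod.natCast_zmod_val x]; exact congrArg _ h5.symm
          simp only [h1, if_false]
          rw [if_pos h5]
          exact congrArg some hxk
        · have h2 := Zig_neg k (Zig_pos k (x := x) (by omega))
          have hx := ZMod.val_lt x
          have h3 : ¬ (-x).val = 0 := by omega
          have h4 : (-x).val ≤ k := by omega
          simp only [h1, h5, h3, h4, if_true, if_false, neg_neg]
  right_inv := by
    rintro (_ | y)
    · have h1 : ((k : ZMod (2 * k + 1))).val = k := by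
        rw [ZMod.val_natCast, Nat.mod_eq_of_lt (by omega)]
      simp [h1]
    · by_cases h1 : y.val = 0
      · have : y = 0 := by
          rw [← ZMod.natCast_zmod_val y, h1]; simp
        subst this
        simp
      · have h2 := Zig_neg k (Zig_pos k (x := y) (by omega))
        have hy := ZMod.val_lt y
        by_cases h3 : y.val ≤ k
        · have h4 : ¬ (-y).val < k := by omega
          have h5 : ¬ (-y).val = k := by omega
          simp only [h1, h3, h4, h5, if_true, if_false, neg_neg]
        · have h6 := Zig_neg_one k y
          have h7 : (-y - 1).val < k := by omega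
          simp only [h1, h3, h7, if_true, if_false]
          congr 1; ring

theorem zig_none : zig k none = some 0 := rfl

theorem zig_some (x : ZMod (2 * k + 1)) : zig k (some x) =
    if x.val < k then some (-x - 1) else if x.val = k then none else some (-x) := rfl

theorem zig_pow (i : ℕ) (hi : i ≤ k) :
    (zig k ^ (2 * i + 1)) none = some (i : ZMod (2 * k + 1)) := by
  induction i with
  | zero => simp [zig_none]
  | succ i ih =>
    rw [show 2 * (i + 1) + 1 = (2 * i + 1) + 1 + 1 by ring, pow_succ', pow_succ',
      Perm.mul_apply, Perm.mul_apply, ih (by omega)]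
    have h1 : ((i : ZMod (2 * k + 1))).val = i := by
      rw [ZMod.val_natCast, Nat.mod_eq_of_lt (by omega)]
    have h2 := Zig_neg_one k (i : ZMod (2 * k + 1))
    rw [h1] at h2
    rw [zig_some, h1, if_pos (by omega), zig_some, h2, if_neg (by omega), if_neg (by omega)]
    congr 1
    push_cast; ring

theorem zig_type : IsType (zig k) {2 * k + 2} := by
  have h1 : ({2 * k + 2} : Multiset ℕ) = fam (fun _ : Unit => 2 * k + 2) := by simp [fam]
  rw [h1]
  have hk : ((k : ZMod (2 * k + 1))).val = k := by
    rw [ZMod.val_natCast, Nat.mod_eq_of_lt (by omega)]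
  refine IsType.of_reps _ _ (fun _ => by positivity) (fun _ => none) ?_ ?_ ?_
  · intro _
    rw [show 2 * k + 2 = (2 * k + 1) + 1 by ring, pow_succ', Perm.mul_apply,
      zig_pow k k le_rfl, zig_some, hk, if_neg (lt_irrefl k), if_pos rfl]
  · rintro (_ | x)
    · exact ⟨(), 0, rfl⟩
    · by_cases hx : x.val ≤ k
      · refine ⟨(), 2 * x.val + 1, ?_⟩
        rw [zig_pow k _ hx, ZMod.natCast_zmod_val]
      · have hx' := ZMod.val_lt x
        refine ⟨(), (2 * (2 * k - x.val) + 1) + 1, ?_⟩
        rw [pow_succ', Perm.mul_apply, zig_pow k _ (by omega), zig_some]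
        have h2 : ((2 * k - x.val : ℕ) : ZMod (2 * k + 1)) = -x - 1 := by
          rw [← Zig_neg_one k x, ZMod.natCast_zmod_val]
        rw [h2, Zig_neg_one, if_pos (by omega)]
        congr 1; ring
  · simp [ZMod.card]

theorem Zig_ne {x y : ZMod (2 * k + 1)} (h : x ≠ y) : x.val ≠ y.val :=
  fun h' => h (ZMod.val_injective _ h')

theorem Zig_half : (2 : ZMod (2 * k + 1)) * (k + 1) = 1 := by
  have h := ZMod.natCast_self (2 * k + 1)
  push_cast at h
  linear_combination h

theorem Zig_eq_half (g s : ZMod (2 * k + 1)) : 2 * g = s ↔ g = s * (k + 1) := by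
  have h := Zig_half k
  constructor
  · intro h1
    linear_combination (k + 1) * h1 - g * h
  · intro h1
    linear_combination 2 * h1 + s * h

theorem KdOn.leaf : KdOn (Option (ZMod (2 * k + 1))) (ZMod (2 * k + 1)) {2 * k + 2} := by
  refine ⟨fun g => (Equiv.optionCongr (Equiv.addRight g)).permCongr (zig k),
    fun g q => match q with
      | none => false
      | some y => decide ((y - g).val ≤ k), fun g => (zig_type k).conj _, ?_⟩
  have k1 : ∀ (g : ZMod (2 * k + 1)) (b : Option (ZMod (2 * k + 1))),
      (Equiv.optionCongr (Equiv.addRight g)).permCongr (zig k) none = b ↔ b = some g := by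
    intro g b
    rw [Equiv.permCongr_apply]
    change (Equiv.optionCongr (Equiv.addRight g)) (zig k none) = b ↔ _
    rw [zig_none]
    simp [eq_comm]
  have k2 : ∀ (g y : ZMod (2 * k + 1)),
      (Equiv.optionCongr (Equiv.addRight g)).permCongr (zig k) (some y) = none ↔
        (y - g).val = k := by
    intro g y
    rw [Equiv.permCongr_apply]
    change (Equiv.optionCongr (Equiv.addRight g)) (zig k (some (y + -g))) = none ↔ _
    rw [zig_some, ← sub_eq_add_neg]
    split_ifs with h1 h2
    · simp only [Equiv.optionCongr_apply, Option.map_some, reduceCtorEq, false_iff]; omega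
    · simp [h2]
    · simp [h2]
  have k3 : ∀ (g y z : ZMod (2 * k + 1)),
      (Equiv.optionCongr (Equiv.addRight g)).permCongr (zig k) (some y) = some z ↔
        ((y - g).val < k ∧ 2 * g = y + z + 1) ∨ (k < (y - g).val ∧ 2 * g = y + z) := by
    intro g y z
    rw [Equiv.permCongr_apply]
    change (Equiv.optionCongr (Equiv.addRight g)) (zig k (some (y + -g))) = some z ↔ _
    rw [zig_some, ← sub_eq_add_neg]
    split_ifs with h1 h2
    · have h3 : ¬ k < (y - g).val := by omega
      simp only [Equiv.optionCongr_apply, Option.map_some, Equiv.coe_addRight, Option.some.injEq,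
        h1, h3, true_and, false_and, or_false]
      constructor
      · intro h; linear_combination h
      · intro h; linear_combination h
    · simp only [Equiv.optionCongr_apply, Option.map_none, reduceCtorEq, false_iff]
      omega
    · have h3 : k < (y - g).val := by omega
      simp only [Equiv.optionCongr_apply, Option.map_some, Equiv.coe_addRight, Option.some.injEq,
        h1, h3, true_and, false_and, false_or]
      constructor
      · intro h; linear_combination h
      · intro h; linear_combination h
  have hk : ((k : ZMod (2 * k + 1))).val = k := by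
    rw [ZMod.val_natCast, Nat.mod_eq_of_lt (by omega)]
  have k4 : ∀ x : ZMod (2 * k + 1), x.val = k ↔ x = k := by
    intro x
    constructor
    · intro h; rw [← ZMod.natCast_zmod_val x, h]
    · rintro rfl; exact hk
  rintro (_ | y) (_ | z) hne c
  · exact absurd rfl hne
  · simp only [k1, k2]
    cases c
    · refine ⟨(z - k, false), Or.inr ⟨rfl, ?_, ?_⟩, ?_⟩
      · rw [sub_sub_cancel]; exact hk
      · rw [sub_sub_cancel, hk]; simp
      · rintro ⟨g, d⟩ (⟨-, h, h'⟩ | ⟨h0, h, -⟩)
        · simp only [Option.some.injEq] at h
          rw [h] at h'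
          simp at h'
        · simp only at h h0
          rw [k4] at h
          rw [h0, ← h, sub_sub_cancel]
    · refine ⟨(z, true), Or.inl ⟨rfl, rfl, by simp⟩, ?_⟩
      rintro ⟨g, d⟩ (⟨h0, h, -⟩ | ⟨-, h, h'⟩)
      · simp only [Option.some.injEq] at h h0
        rw [h, h0]
      · simp only at h h'
        rw [h] at h'
        simp at h'
  · simp only [k1, k2]
    cases c
    · refine ⟨(y - k, true), Or.inl ⟨rfl, ?_, rfl⟩, ?_⟩
      · rw [sub_sub_cancel]; exact hk
      · rintro ⟨g, d⟩ (⟨h0, h, -⟩ | ⟨-, -, h'⟩)
        · simp only at h h0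
          rw [k4] at h
          rw [h0, ← h, sub_sub_cancel]
        · simp at h'
    · refine ⟨(y, false), Or.inr ⟨rfl, rfl, rfl⟩, ?_⟩
      rintro ⟨g, d⟩ (⟨-, -, h'⟩ | ⟨h0, h, -⟩)
      · simp at h'
      · simp only [Option.some.injEq] at h h0
        rw [h, h0]
  · have hyz : y ≠ z := fun h => hne (by rw [h])
    simp only [k3]
    cases c
    · -- label false: 2 g = y + z + 1
      set g : ZMod (2 * k + 1) := (y + z + 1) * (k + 1) with hg
      have hg2 : 2 * g = y + z + 1 := (Zig_eq_half k _ _).2 hg
      have e1 : z - g = -(y - g) - 1 := by linear_combination (-1 : ZMod (2 * k + 1)) * hg2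
      have e2 := Zig_neg_one k (y - g)
      rw [← e1] at e2
      have e3 : (z - g).val ≠ (y - g).val := Zig_ne k fun h => hyz (by
        linear_combination (-1 : ZMod (2 * k + 1)) * h)
      have e7 := ZMod.val_lt (y - g)
      by_cases hy : (y - g).val < k
      · refine ⟨(g, true), Or.inl ⟨rfl, Or.inl ⟨hy, hg2⟩, ?_⟩, ?_⟩
        · simp only [decide_eq_false_iff_not]; omega
        · rintro ⟨g', d⟩ h
          simp only at h
          rcases h with ⟨h0, ⟨-, h1⟩ | ⟨h1, h2⟩, h3⟩ | ⟨h0, ⟨h1, h2⟩ | ⟨h1, h2⟩, h3⟩
          · rw [h0, (Zig_eq_half k _ _).1 h1]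
          · exfalso
            have e4 : z - g' = -(y - g') := by linear_combination (-1 : ZMod (2 * k + 1)) * h2
            have e5 := Zig_neg k (Zig_pos k (x := y - g') (by omega))
            rw [← e4] at e5
            have := ZMod.val_lt (y - g')
            simp only [decide_eq_false_iff_not] at h3
            omega
          · exfalso
            have e4 : g' = g := by
              rw [(Zig_eq_half k _ _).1 h2, hg]; ring
            rw [e4] at h1
            omega
          · exfalso
            simp only [Bool.not_false, decide_eq_true_eq] at h3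
            omega
      · have hz : (z - g).val < k := by omega
        refine ⟨(g, false), Or.inr ⟨rfl, Or.inl ⟨hz, by rw [hg2]; ring⟩, ?_⟩, ?_⟩
        · simp only [Bool.not_false, decide_eq_true_eq]; omega
        · rintro ⟨g', d⟩ h
          simp only at h
          rcases h with ⟨h0, ⟨h1, h2⟩ | ⟨h1, h2⟩, h3⟩ | ⟨h0, ⟨h1, h2⟩ | ⟨h1, h2⟩, h3⟩
          · exfalso
            have e4 : g' = g := (Zig_eq_half k _ _).1 h2
            rw [e4] at h1
            omega
          · exfalso
            have e4 : z - g' = -(y - g') := by linear_combination (-1 : ZMod (2 * k + 1)) * h2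
            have e5 := Zig_neg k (Zig_pos k (x := y - g') (by omega))
            rw [← e4] at e5
            have := ZMod.val_lt (y - g')
            simp only [decide_eq_false_iff_not] at h3
            omega
          · rw [h0]
            have e4 : g' = g := by
              rw [(Zig_eq_half k _ _).1 h2, hg]; ring
            rw [e4]
          · exfalso
            simp only [Bool.not_false, decide_eq_true_eq] at h3
            omega
    · -- label true: 2 g = y + z
      set g : ZMod (2 * k + 1) := (y + z) * (k + 1) with hg
      have hg2 : 2 * g = y + z := (Zig_eq_half k _ _).2 hg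
      have e1 : z - g = -(y - g) := by linear_combination (-1 : ZMod (2 * k + 1)) * hg2
      have e0 : y - g ≠ 0 := by
        intro h
        rw [h] at e1
        apply hyz
        linear_combination h - e1
      have e2 := Zig_neg k e0
      rw [← e1] at e2
      have e3 := ZMod.val_lt (y - g)
      have e6 : (y - g).val ≠ 0 := by
        intro h
        exact e0 (by rw [← ZMod.natCast_zmod_val (y - g), h]; simp)
      by_cases hy : k < (y - g).val
      · refine ⟨(g, true), Or.inl ⟨rfl, Or.inr ⟨hy, hg2⟩, ?_⟩, ?_⟩
        · simp only [decide_eq_true_eq]; omega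
        · rintro ⟨g', d⟩ h
          simp only at h
          rcases h with ⟨h0, ⟨h1, h2⟩ | ⟨h1, h2⟩, h3⟩ | ⟨h0, ⟨h1, h2⟩ | ⟨h1, h2⟩, h3⟩
          · exfalso
            have e4 : z - g' = -(y - g') - 1 := by
              linear_combination (-1 : ZMod (2 * k + 1)) * h2
            have e5 := Zig_neg_one k (y - g')
            rw [← e4] at e5
            simp only [decide_eq_true_eq] at h3
            omega
          · rw [h0, (Zig_eq_half k _ _).1 h2]
          · exfalso
            simp only [Bool.not_true, decide_eq_false_iff_not] at h3
            omega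
          · exfalso
            have e4 : g' = g := by
              rw [(Zig_eq_half k _ _).1 h2, hg]; ring
            rw [e4] at h1
            omega
      · have hz : k < (z - g).val := by omega
        refine ⟨(g, false), Or.inr ⟨rfl, Or.inr ⟨hz, by rw [hg2]; ring⟩, ?_⟩, ?_⟩
        · simp only [Bool.not_true, decide_eq_false_iff_not]; omega
        · rintro ⟨g', d⟩ h
          simp only at h
          rcases h with ⟨h0, ⟨h1, h2⟩ | ⟨h1, h2⟩, h3⟩ | ⟨h0, ⟨h1, h2⟩ | ⟨h1, h2⟩, h3⟩
          · exfalso
            have e4 : z - g' = -(y - g') - 1 := by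
              linear_combination (-1 : ZMod (2 * k + 1)) * h2
            have e5 := Zig_neg_one k (y - g')
            rw [← e4] at e5
            simp only [decide_eq_true_eq] at h3
            omega
          · exfalso
            have e4 : g' = g := (Zig_eq_half k _ _).1 h2
            rw [e4] at h1
            omega
          · exfalso
            simp only [Bool.not_true, decide_eq_false_iff_not] at h3
            omega
          · rw [h0]
            have e4 : g' = g := by
              rw [(Zig_eq_half k _ _).1 h2, hg]; ring
            rw [e4]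

end zig

end Pool.Agent.H.Tc26
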